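import Pool.Agent.H78.SS.CCC

set_option autoImplicit false

/-!
A strongly surjective Aronszajn line under Martin's axiom.
-/

namespace Pool.Agent.H78.SS

open Set Cardinal

/-- a countable order dense subset of a set of reals -/
lemma exists_order_dense (X : Set ℝ) : ∃ D ⊆ X, D.Countable ∧
    ∀ x ∈ X, ∀ y ∈ X, x < y → ∃ d ∈ D, x ≤ d ∧ d ≤ y := by
  classical
  let f : ℚ × ℚ → Set ℝ := fun r => if h : (X ∩ Ioo (r.1 : ℝ) r.2).Nonempty then {h.choose} else ∅
  let g : ℚ → Set ℝ := fun r => {m | m ∈ X ∧ m ≤ r ∧ ∀ z ∈ X, z ≤ r → z ≤ m}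
  refine ⟨(⋃ r, f r) ∪ ⋃ r, g r, ?_, ?_, ?_⟩
  · apply union_subset
    · apply iUnion_subset
      intro r x hx
      by_cases h : (X ∩ Ioo (r.1 : ℝ) r.2).Nonempty
      · have : x ∈ ({h.choose} : Set ℝ) := by simpa [f, h] using hx
        rw [this]
        exact h.choose_spec.1
      · simp [f, h] at hx
    · apply iUnion_subset
      intro r x hx
      exact hx.1
  · refine (countable_iUnion fun r => ?_).union (countable_iUnion fun r => ?_)
    · by_cases h : (X ∩ Ioo (r.1 : ℝ) r.2).Nonempty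
      · simp [f, h]
      · simp [f, h]
    · refine Set.Subsingleton.countable ?_
      rintro a ⟨ha1, ha2, ha3⟩ b ⟨hb1, hb2, hb3⟩
      exact le_antisymm (hb3 a ha1 ha2) (ha3 b hb1 hb2)
  · intro x hx y hy hxy
    by_cases hz : ∃ z ∈ X, x < z ∧ z < y
    · obtain ⟨z, hzX, h1, h2⟩ := hz
      obtain ⟨p, hp1, hp2⟩ := exists_rat_btwn h1
      obtain ⟨q, hq1, hq2⟩ := exists_rat_btwn h2
      have h : (X ∩ Ioo (((p, q) : ℚ × ℚ).1 : ℝ) ((p, q) : ℚ × ℚ).2).Nonempty := ⟨z, hzX, hp2, hq1⟩
      refine ⟨h.choose, Or.inl (mem_iUnion.2 ⟨(p, q), ?_⟩), ?_, ?_⟩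
      · show h.choose ∈ (if h : (X ∩ Ioo (((p, q) : ℚ × ℚ).1 : ℝ) ((p, q) : ℚ × ℚ).2).Nonempty
          then ({h.choose} : Set ℝ) else ∅)
        rw [dif_pos h]
        rfl
      · exact (hp1.trans h.choose_spec.2.1).le
      · exact (h.choose_spec.2.2.trans hq2).le
    · push Not at hz
      obtain ⟨r, hr1, hr2⟩ := exists_rat_btwn hxy
      refine ⟨x, Or.inr (mem_iUnion.2 ⟨r, hx, hr1.le, ?_⟩), le_rfl, hxy.le⟩
      intro z hzX hzr
      by_contra hc
      exact absurd (hz z hzX (not_le.1 hc)) (not_le.2 (lt_of_le_of_lt hzr hr2))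

/-- the nodes avoiding the value `1` -/
def L0 : Set F := {t | t ∈ T ∧ ∀ η, t η ≠ 1}

open Classical in
/-- the node `e_w + 2` -/
noncomputable def base (w : W) : F := fun η => if η ≤ w then (e w η : ℤ) + 2 else 0

lemma base_node (w : W) : IsNode (base w) w := by
  constructor
  · intro η
    unfold base
    split_ifs with h
    · exact ⟨fun _ => h, fun _ => by positivity⟩
    · exact ⟨fun h1 => absurd rfl h1, fun h1 => absurd h1 h⟩
  · convert Set.finite_empty
    ext η
    simp only [mem_ofPred_eq, mem_empty_iff_false, iff_false, not_and, not_not]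
    intro h
    exact if_pos h.le

lemma base_mem (w : W) : base w ∈ L0 := by
  refine ⟨⟨w, base_node w⟩, fun η => ?_⟩
  unfold base
  split_ifs
  · omega
  · norm_num

lemma top_base (w : W) : top (base w) = w := top_eq (base_node w)

lemma cl_L0 : Cl L0 where
  sub := fun t ht => ht.1
  ne := ⟨_, base_mem (Classical.arbitrary W)⟩
  ext := by
    intro b hb s hs h1 h2
    refine ⟨hs, fun η => ?_⟩
    rcases le_or_gt η (top b) with h | h
    · rw [h1 η h]; exact hb.2 η
    · exact h2 η h

/-- `s` runs through `k` followed by the value `1` -/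
def Thr (k s : F) : Prop := (∀ η ≤ top k, s η = k η) ∧ s (sc (top k)) = 1

/-- the nodes through `k` followed by `1`, for `k ∈ K` -/
def BK (K : Set F) : Set F := {s | s ∈ T ∧ ∃ k ∈ K, Thr k s}

lemma cl_BK {K : Set F} (hK : K ⊆ L0) (hne : K.Nonempty) : Cl (BK K) where
  sub := fun t ht => ht.1
  ne := by
    obtain ⟨k, hk⟩ := hne
    have hkT := (hK hk).1
    refine ⟨glue k (sc (top k)) 1, glue_mem hkT (lt_sc _) one_ne_zero, k, hk, ?_, ?_⟩
    · intro η hη
      exact glue_of_le hη
    · exact glue_sc (lt_sc _)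
  ext := by
    rintro b ⟨hb, k, hk, h1, h2⟩ s hs h3 _
    have h4 : sc (top k) ≤ top b := by
      rw [← ne_zero_iff hb, h2]; exact one_ne_zero
    refine ⟨hs, k, hk, fun η hη => ?_, ?_⟩
    · rw [h3 η (hη.trans ((lt_sc _).le.trans h4)), h1 η hη]
    · rw [h3 _ h4, h2]

lemma thr_lt {k k' s s' : F} (hk : k ∈ L0) (hk' : k' ∈ L0) (h : Thr k s) (h' : Thr k' s')
    (hlt : k' < k) : s' < s := by
  obtain ⟨i, h1, h2⟩ := hlt
  have h1' : ∀ j < i, k' j = k j := h1
  have h2' : k' i < k i := h2
  by_cases hi : i ≤ top k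
  · by_cases hi' : i ≤ top k'
    · refine ⟨i, fun j hj => ?_, ?_⟩
      · show s' j = s j
        rw [h'.1 j (hj.le.trans hi'), h.1 j (hj.le.trans hi), h1' j hj]
      · show s' i < s i
        rw [h'.1 i hi', h.1 i hi]; exact h2'
    · rw [not_le] at hi'
      have h3 : k' i = 0 := (eq_zero_iff hk'.1 i).2 hi'
      have h4 : i = sc (top k') := by
        apply le_antisymm _ (sc_le hi')
        by_contra hc
        rw [not_le] at hc
        have h5 := h1' _ hc
        rw [b_sc hk'.1] at h5
        exact (ne_zero_iff hk.1 _).2 (hc.le.trans hi) h5.symm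
      refine ⟨i, fun j hj => ?_, ?_⟩
      · show s' j = s j
        have hj' : j ≤ top k' := by
          rw [h4] at hj; exact lt_sc_iff.1 hj
        rw [h'.1 j hj', h.1 j (hj.le.trans hi), h1' j hj]
      · show s' i < s i
        rw [h.1 i hi]
        have h5 : s' i = 1 := by rw [h4]; exact h'.2
        have h6 := hk.2 i
        omega
  · rw [not_le] at hi
    have h3 : k i = 0 := (eq_zero_iff hk.1 i).2 hi
    have hi' : i ≤ top k' := by
      rw [← ne_zero_iff hk'.1]
      omega
    have h4 : i = sc (top k) := by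
      apply le_antisymm _ (sc_le hi)
      by_contra hc
      rw [not_le] at hc
      have h5 := h1' _ hc
      rw [b_sc hk.1] at h5
      exact (ne_zero_iff hk'.1 _).2 (hc.le.trans hi') h5
    refine ⟨i, fun j hj => ?_, ?_⟩
    · show s' j = s j
      have hj' : j ≤ top k := by
        rw [h4] at hj; exact lt_sc_iff.1 hj
      rw [h'.1 j (hj.le.trans hi'), h.1 j hj', h1' j hj]
    · show s' i < s i
      rw [h'.1 i hi']
      have h5 : s i = 1 := by rw [h4]; exact h.2
      omega

/-- `BK K` maps onto `K` -/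
lemma BK_onto {K : Set F} (hK : K ⊆ L0) :
    ∃ f : BK K → K, Monotone f ∧ Function.Surjective f := by
  have h : ∀ s : BK K, ∃ k : K, Thr k.1 s.1 := by
    rintro ⟨s, hs, k, hk, h⟩
    exact ⟨⟨k, hk⟩, h⟩
  choose f hf using h
  refine ⟨f, ?_, ?_⟩
  · intro s s' hss
    by_contra hc
    rw [not_le] at hc
    exact absurd hss (not_le.2 (thr_lt (hK (f s).2) (hK (f s').2) (hf s) (hf s') hc))
  · intro k
    have hkT := (hK k.2).1
    have hthr : Thr k.1 (glue k.1 (sc (top k.1)) 1) :=
      ⟨fun η hη => glue_of_le hη, glue_sc (lt_sc _)⟩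
    let s : BK K := ⟨glue k.1 (sc (top k.1)) 1, glue_mem hkT (lt_sc _) one_ne_zero, k.1, k.2, hthr⟩
    refine ⟨s, ?_⟩
    rcases lt_trichotomy (f s) k with h1 | h1 | h1
    · exact absurd (thr_lt (hK k.2) (hK (f s).2) hthr (hf s) h1) (lt_irrefl _)
    · exact h1
    · exact absurd (thr_lt (hK (f s).2) (hK k.2) (hf s) hthr h1) (lt_irrefl _)

/-- Under Martin's axiom `L0` is strongly surjective. -/
theorem L0_ss (hMA : MartinAxiom) : StronglySurjective L0 := by
  intro K hK
  have hK' : (Subtype.val '' K : Set F) ⊆ L0 := by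
    rintro _ ⟨x, _, rfl⟩; exact x.2
  obtain ⟨φ⟩ := iso_of_MA hMA cl_L0 (cl_BK hK' (hK.image _))
  obtain ⟨f, hf1, hf2⟩ := BK_onto hK'
  have hmem : ∀ y : (Subtype.val '' K : Set F), ∃ x : K, x.1.1 = y.1 := by
    rintro ⟨_, x, hx, rfl⟩
    exact ⟨⟨x, hx⟩, rfl⟩
  choose ρ hρ using hmem
  refine ⟨fun x => ρ (f (φ x)), ?_, ?_⟩
  · intro x y hxy
    have h1 := hf1 (φ.monotone hxy)
    show (ρ (f (φ x))).1.1 ≤ (ρ (f (φ y))).1.1
    rw [hρ, hρ]
    exact h1
  · intro k
    obtain ⟨s, hs⟩ := hf2 ⟨k.1.1, k.1, k.2, rfl⟩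
    refine ⟨φ.symm s, ?_⟩
    show ρ (f (φ (φ.symm s))) = k
    rw [φ.apply_symm_apply, hs]
    apply Subtype.ext
    apply Subtype.ext
    exact hρ _

/-- `L0` is an Aronszajn line. -/
theorem L0_aronszajn : IsAronszajnLine L0 where
  uncountable := by
    rw [← not_countable_iff]
    intro hc
    apply not_countable_W
    rw [Set.countable_univ_iff]
    have hinj : Function.Injective (fun w : W => (⟨base w, base_mem w⟩ : L0)) := by
      intro a b h
      have h1 : base a = base b := congrArg Subtype.val h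
      rw [← top_base a, h1, top_base]
    exact hinj.countable
  omega1 := by
    refine ⟨fun g => ?_⟩
    refine no_strictMono (fun w => (g w).1) (fun w => (g w).2.1) ?_
    intro a b hab
    exact g.strictMono hab
  omega1_dual := by
    refine ⟨fun g => ?_⟩
    refine no_strictAnti (fun w => (g (OrderDual.toDual w)).1) (fun w => (g _).2.1) ?_
    intro a b hab
    exact g.strictMono (OrderDual.toDual_lt_toDual.2 hab)
  real := by
    intro X hX
    refine ⟨fun φ => ?_⟩
    obtain ⟨D, hDX, hDc, hD⟩ := exists_order_dense X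
    -- bound of the lengths
    have hcnt : ((fun x : X => sc (top (φ x).1)) '' {x | x.1 ∈ D}).Countable :=
      (hDc.preimage Subtype.val_injective).image _
    obtain ⟨δ, hδ⟩ := exists_gt hcnt
    -- two parts
    have hinj : Function.Injective (fun x : X => (φ x).1) :=
      fun a b h => φ.injective (Subtype.ext h)
    have h1 : {x : X | top (φ x).1 < δ}.Countable := by
      have : {x : X | top (φ x).1 < δ} ⊆ (fun x : X => (φ x).1) ⁻¹' {t ∈ T | top t < δ} :=
        fun x hx => ⟨(φ x).2.1, hx⟩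
      exact ((countable_low δ).preimage hinj).mono this
    have hsep : ∀ x y : X, x < y → δ ≤ top (φ x).1 → δ ≤ top (φ y).1 →
        ¬ agree δ (φ x).1 (φ y).1 := by
      intro x y hxy hx hy hag
      obtain ⟨d, hd, hxd, hdy⟩ := hD x x.2 y y.2 hxy
      let d' : X := ⟨d, hDX hd⟩
      have hlt : sc (top (φ d').1) < δ := hδ _ ⟨d', hd, rfl⟩
      have htop : top (φ d').1 < δ := (lt_sc _).trans hlt
      have hxd' : (φ x).1 < (φ d').1 := by
        have h2 : φ x ≤ φ d' := φ.monotone hxd
        refine lt_of_le_of_ne h2 ?_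
        intro h3
        rw [h3] at hx
        exact absurd htop (not_lt.2 hx)
      have hdy' : (φ d').1 < (φ y).1 := by
        have h2 : φ d' ≤ φ y := φ.monotone hdy
        refine lt_of_le_of_ne h2 ?_
        intro h3
        rw [← h3] at hy
        exact absurd htop (not_lt.2 hy)
      have h3 := agree_of_between hag hxd' hdy'
      have h4 : (φ x).1 (sc (top (φ d').1)) = 0 := by
        rw [h3 _ hlt]; exact b_sc (φ d').2.1
      exact (ne_zero_iff (φ x).2.1 _).2 (hlt.le.trans hx) h4
    have h2 : {x : X | δ ≤ top (φ x).1}.Countable := by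
      refine Set.MapsTo.countable_of_injOn (f := fun x : X => res δ (φ x).1)
        (t := {f | ∃ t ∈ T, f = res δ t}) ?_ ?_ (countable_res δ)
      · intro x _
        exact ⟨(φ x).1, (φ x).2.1, rfl⟩
      · intro x hx y hy hxy
        have hag : agree δ (φ x).1 (φ y).1 := res_eq_iff.1 hxy
        rcases lt_trichotomy x y with h3 | h3 | h3
        · exact absurd hag (hsep x y h3 hx hy)
        · exact h3
        · exact absurd hag.symm (hsep y x h3 hy hx)
    apply hX
    have h3 : (univ : Set X).Countable := by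
      refine (h1.union h2).mono fun x _ => ?_
      rcases lt_or_ge (top (φ x).1) δ with h | h
      · exact Or.inl h
      · exact Or.inr h
    rw [Set.countable_univ_iff] at h3
    exact h3

end Pool.Agent.H78.SS
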