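import Pool.Agent.H78.SS.Iso

set_option autoImplicit false

/-!
The poset of finite partial level preserving isomorphisms is ccc, and the isomorphism theorem.
-/

namespace Pool.Agent.H78.SS

open Set Cardinal

/-- conditions -/
structure Cond (E : Set W) (A B : Set F) where
  p : Finset (F × F)
  mem : ∀ x ∈ p, x.1 ∈ A ∧ x.2 ∈ B ∧ SL E x
  rel : ∀ x ∈ p, ∀ y ∈ p, R E x y

variable {E : Set W} {A B : Set F}

lemma Cond.ext' {c d : Cond E A B} (h : c.p = d.p) : c = d := by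
  cases c; cases d; simp at h; subst h; rfl

instance : PartialOrder (Cond E A B) where
  le c d := d.p ⊆ c.p
  le_refl c := Finset.Subset.refl _
  le_trans a b c h1 h2 := Finset.Subset.trans h2 h1
  le_antisymm a b h1 h2 := Cond.ext' (Finset.Subset.antisymm h2 h1)

lemma le_def {c d : Cond E A B} : c ≤ d ↔ d.p ⊆ c.p := Iff.rfl

instance : Nonempty (Cond E A B) :=
  ⟨⟨∅, fun x hx => absurd hx (Finset.notMem_empty x), fun x hx => absurd hx (Finset.notMem_empty x)⟩⟩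

/-- limit points of `E` -/
def LE (E : Set W) : Set W := {ν | ν ∈ E ∧ (∃ w, w < ν) ∧ ∀ β < ν, ∃ ε ∈ E, β < ε ∧ ε < ν}

lemma exists_LE (hE : GoodE E) (h : W → W) : ∃ ν ∈ LE E, ∀ β < ν, h β < ν := by
  choose nx hnx1 hnx2 using hE.unb
  obtain ⟨ν, hν, hw⟩ := EE_unbounded (fun β => max (h β) (nx β)) (Classical.arbitrary W)
  have h1 : ∀ β < ν, h β < ν := fun β hβ => lt_of_le_of_lt (le_max_left _ _) (hν β hβ)
  have h2 : ∀ β < ν, nx β < ν := fun β hβ => lt_of_le_of_lt (le_max_right _ _) (hν β hβ)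
  refine ⟨ν, ⟨?_, ⟨_, hw⟩, fun β hβ => ⟨nx β, hnx1 β, hnx2 β, h2 β hβ⟩⟩, h1⟩
  obtain ⟨δ, hδ1, hδ2, hδ3⟩ := hE.floor ν
  rcases eq_or_lt_of_le hδ2 with h3 | h3
  · rw [← h3]; exact hδ1
  · exact absurd (hδ3 (nx δ) (hnx1 δ) (h2 δ h3).le) (not_le.2 (hnx2 δ))

lemma finite_bound {ν : W} (hν : ∃ w, w < ν) {U : Set W} (hU : U.Finite) (h : ∀ u ∈ U, u < ν) :
    ∃ m, m < ν ∧ ∀ u ∈ U, u ≤ m := by
  induction U, hU using Set.Finite.induction_on with
  | empty =>
    obtain ⟨w, hw⟩ := hν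
    exact ⟨w, hw, fun u hu => absurd hu (notMem_empty u)⟩
  | insert _ _ ih =>
    rename_i a s _ _
    obtain ⟨m, hm, hm'⟩ := ih (fun u hu => h u (mem_insert_of_mem _ hu))
    refine ⟨max a m, max_lt (h a (mem_insert _ _)) hm, ?_⟩
    rintro u (rfl | hu)
    · exact le_max_left _ _
    · exact (hm' u hu).trans (le_max_right _ _)

/-- the cut point of a condition at a limit of `E` -/
lemma exists_cut (hA : A ⊆ T) (hB : B ⊆ T) (c : Cond E A B) {ν : W}
    (hν : ν ∈ LE E) : ∃ γ ∈ E, γ < ν ∧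
      (∀ x ∈ c.p, top x.1 < ν → top x.1 < γ ∧ top x.2 < γ) ∧
      (∀ x ∈ c.p, ¬ top x.1 < ν → ∀ η, γ ≤ η → η < ν →
        x.1 η = (e ν η : ℤ) + 2 ∧ x.2 η = (e ν η : ℤ) + 2) := by
  classical
  obtain ⟨hνE, hw, hlim⟩ := hν
  let U : Set W := ⋃ x ∈ (c.p : Set (F × F)), (if top x.1 < ν then {top x.1, top x.2} else
    {η | η < ν ∧ x.1 η ≠ (e ν η : ℤ) + 2} ∪ {η | η < ν ∧ x.2 η ≠ (e ν η : ℤ) + 2})
  have hUfin : U.Finite := by
    refine Set.Finite.biUnion (Finset.finite_toSet _) fun x hx => ?_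
    split_ifs with h
    · exact (finite_singleton _).insert _
    · have h1 : ν ≤ top x.1 := not_lt.1 h
      have h2 : ν ≤ top x.2 := ((c.mem x hx).2.2 ν hνE).1 h1
      exact (node_coh (hA (c.mem x hx).1) h1).union (node_coh (hB (c.mem x hx).2.1) h2)
  have hUlt : ∀ u ∈ U, u < ν := by
    intro u hu
    obtain ⟨x, hx, hux⟩ := mem_iUnion₂.1 hu
    split_ifs at hux with h
    · rcases hux with rfl | rfl
      · exact h
      · by_contra h2
        exact absurd h (not_lt.2 (((c.mem x hx).2.2 ν hνE).2 (not_lt.1 h2)))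
    · rcases hux with h1 | h1
      · exact h1.1
      · exact h1.1
  obtain ⟨m, hm, hmU⟩ := finite_bound hw hUfin hUlt
  obtain ⟨γ, hγE, hmγ, hγν⟩ := hlim m hm
  refine ⟨γ, hγE, hγν, ?_, ?_⟩
  · intro x hx h
    have h1 : top x.1 ∈ U := mem_biUnion (Finset.mem_coe.2 hx) (by rw [if_pos h]; exact Or.inl rfl)
    have h2 : top x.2 ∈ U := mem_biUnion (Finset.mem_coe.2 hx) (by rw [if_pos h]; exact Or.inr rfl)
    exact ⟨lt_of_le_of_lt (hmU _ h1) hmγ, lt_of_le_of_lt (hmU _ h2) hmγ⟩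
  · intro x hx h η h1 h2
    constructor
    · by_contra hc
      have h3 : η ∈ U := mem_biUnion (Finset.mem_coe.2 hx) (by
        rw [if_neg h]; exact Or.inl ⟨h2, hc⟩)
      exact absurd (lt_of_le_of_lt (hmU _ h3) hmγ) (not_lt.2 h1)
    · by_contra hc
      have h3 : η ∈ U := mem_biUnion (Finset.mem_coe.2 hx) (by
        rw [if_neg h]; exact Or.inr ⟨h2, hc⟩)
      exact absurd (lt_of_le_of_lt (hmU _ h3) hmγ) (not_lt.2 h1)

lemma R_of_diff {x y : F × F} {i : W} (h1 : agree i x.1 y.1) (h2 : agree i x.2 y.2)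
    (h3 : x.1 i = x.2 i) (h4 : y.1 i = y.2 i) (h5 : x.1 i ≠ y.1 i) : R E x y := by
  have h5' : x.2 i ≠ y.2 i := by rwa [← h3, ← h4]
  refine ⟨fun ε _ => ?_, ?_, ?_⟩
  · rw [agree_iff_le h1 h5, agree_iff_le h2 h5']
  · rcases lt_or_gt_of_ne h5 with h6 | h6
    · have h6' : x.2 i < y.2 i := by rwa [← h3, ← h4]
      exact ⟨fun _ => ⟨i, h2, h6'⟩, fun _ => ⟨i, h1, h6⟩⟩
    · have h6' : y.2 i < x.2 i := by rwa [← h3, ← h4]
      have h7 : y.1 < x.1 := ⟨i, h1.symm, h6⟩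
      have h8 : y.2 < x.2 := ⟨i, h2.symm, h6'⟩
      exact ⟨fun h => absurd h (not_lt.2 h7.le), fun h => absurd h (not_lt.2 h8.le)⟩
  · rcases lt_or_gt_of_ne h5 with h6 | h6
    · have h6' : x.2 i < y.2 i := by rwa [← h3, ← h4]
      have h7 : x.1 < y.1 := ⟨i, h1, h6⟩
      have h8 : x.2 < y.2 := ⟨i, h2, h6'⟩
      exact ⟨fun h => absurd h (not_lt.2 h7.le), fun h => absurd h (not_lt.2 h8.le)⟩
    · have h6' : y.2 i < x.2 i := by rwa [← h3, ← h4]
      exact ⟨fun _ => ⟨i, h2.symm, h6'⟩, fun _ => ⟨i, h1.symm, h6⟩⟩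

/-- The countable chain condition. -/
theorem ccc (hE : GoodE E) (hA : A ⊆ T) (hB : B ⊆ T) : CCC (Cond E A B) := by
  classical
  intro 𝒜 h𝒜
  by_contra hunc
  -- an injective enumeration
  have hcard : #W ≤ #𝒜 := by
    rw [mk_W, ← succ_aleph0, Order.succ_le_iff, ← not_le]
    intro h
    exact hunc (Cardinal.le_aleph0_iff_set_countable.1 h)
  obtain ⟨ι⟩ := hcard
  let c : W → Cond E A B := fun w => (ι w).1
  have hcinj : Function.Injective c := fun a b h => ι.injective (Subtype.ext h)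
  -- cut points
  have hcut : ∀ ν : W, ∃ γ ∈ E, ν ∈ LE E → (γ < ν ∧
      (∀ x ∈ (c ν).p, top x.1 < ν → top x.1 < γ ∧ top x.2 < γ) ∧
      (∀ x ∈ (c ν).p, ¬ top x.1 < ν → ∀ η, γ ≤ η → η < ν →
        x.1 η = (e ν η : ℤ) + 2 ∧ x.2 η = (e ν η : ℤ) + 2)) := by
    intro ν
    by_cases hν : ν ∈ LE E
    · obtain ⟨γ, h1, h2⟩ := exists_cut hA hB (c ν) hν
      exact ⟨γ, h1, fun _ => h2⟩
    · obtain ⟨γ, h1, _⟩ := hE.unb ν
      exact ⟨γ, h1, fun h => absurd h hν⟩
  choose g hgE hg using hcut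
  let low : W → Set (F × F) := fun ν => {x | x ∈ (c ν).p ∧ top x.1 < ν}
  let pat : W → Set (F × F) := fun ν =>
    (fun x : F × F => (res (g ν) x.1, res (g ν) x.2)) '' {x | x ∈ (c ν).p ∧ ¬ top x.1 < ν}
  -- uncountably many with the same data
  have hdata : ∃ γ : W, ∃ d : Set (F × F) × Set (F × F),
      ¬ {ν | ν ∈ LE E ∧ g ν = γ ∧ (low ν, pat ν) = d}.Countable := by
    by_contra hcon
    push Not at hcon
    have hcount : ∀ γ : W, {ν | ν ∈ LE E ∧ g ν = γ}.Countable := by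
      intro γ
      let Q1 : Set (F × F) := {t ∈ T | top t < γ} ×ˢ {t ∈ T | top t < γ}
      let Q2 : Set (F × F) := {f | ∃ t ∈ T, f = res γ t} ×ˢ {f | ∃ t ∈ T, f = res γ t}
      have hQ1 : Q1.Countable := (countable_low γ).prod (countable_low γ)
      have hQ2 : Q2.Countable := (countable_res γ).prod (countable_res γ)
      have hD : ({t : Set (F × F) | t.Finite ∧ t ⊆ Q1} ×ˢ
          {t : Set (F × F) | t.Finite ∧ t ⊆ Q2}).Countable :=
        (Set.countable_ofPred_finite_subset hQ1).prod (Set.countable_ofPred_finite_subset hQ2)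
      refine (hD.biUnion fun d _ => hcon γ d).mono ?_
      rintro ν ⟨hν, hgν⟩
      have hgν' := hg ν hν
      refine mem_biUnion (x := (low ν, pat ν)) ?_ ⟨hν, hgν, rfl⟩
      refine ⟨⟨?_, ?_⟩, ⟨?_, ?_⟩⟩
      · exact (Finset.finite_toSet (c ν).p).subset fun x hx => hx.1
      · rintro x ⟨hx, hx'⟩
        have h1 := hgν'.2.1 x hx hx'
        rw [hgν] at h1
        exact ⟨⟨hA ((c ν).mem x hx).1, h1.1⟩, ⟨hB ((c ν).mem x hx).2.1, h1.2⟩⟩
      · exact ((Finset.finite_toSet (c ν).p).subset fun x hx => hx.1).image _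
      · rintro _ ⟨x, ⟨hx, hx'⟩, rfl⟩
        rw [hgν]
        exact ⟨⟨x.1, hA ((c ν).mem x hx).1, rfl⟩, ⟨x.2, hB ((c ν).mem x hx).2.1, rfl⟩⟩
    have hbd : ∀ γ : W, ∃ u, ∀ ν ∈ {ν | ν ∈ LE E ∧ g ν = γ}, ν < u := fun γ => exists_gt (hcount γ)
    choose u hu using hbd
    obtain ⟨ν, hν, hν'⟩ := exists_LE hE u
    have h1 := hu (g ν) ν ⟨hν, rfl⟩
    have h2 := hν' (g ν) (hg ν hν).1
    exact absurd (h1.trans h2) (lt_irrefl _)
  obtain ⟨γ, d, hd⟩ := hdata
  obtain ⟨ν, hν, μ, hμ, hγν, hνμ, ξ, hξ1, hξ2, hξ3⟩ := no_branch γ _ hd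
  obtain ⟨hνL, hνg, hνd⟩ := hν
  obtain ⟨hμL, hμg, hμd⟩ := hμ
  have hlow : low ν = low μ := by
    have := hνd.trans hμd.symm
    exact (Prod.ext_iff.1 this).1
  have hpat : pat ν = pat μ := by
    have := hνd.trans hμd.symm
    exact (Prod.ext_iff.1 this).2
  have hγE : γ ∈ E := hνg ▸ hgE ν
  obtain ⟨_, _, hν3⟩ := hg ν hνL
  obtain ⟨_, _, hμ3⟩ := hg μ hμL
  rw [hνg] at hν3
  rw [hμg] at hμ3
  -- first difference
  have hne : {i | γ ≤ i ∧ e ν i ≠ e μ i}.Nonempty := ⟨ξ, hξ1, hξ3⟩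
  set i := WellFounded.min (wellFounded_lt (α := W)) _ hne with hi
  have hi1 : γ ≤ i ∧ e ν i ≠ e μ i := WellFounded.min_mem (wellFounded_lt (α := W)) _ hne
  have hi2 : ∀ j, γ ≤ j → j < i → e ν j = e μ j := by
    intro j hj hji
    by_contra hc
    exact WellFounded.not_lt_min (wellFounded_lt (α := W)) {i | γ ≤ i ∧ e ν i ≠ e μ i} ⟨hj, hc⟩ hji
  have hiξ : i ≤ ξ := not_lt.1 (WellFounded.not_lt_min (wellFounded_lt (α := W))
    {i | γ ≤ i ∧ e ν i ≠ e μ i} ⟨hξ1, hξ3⟩)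
  have hiν : i < ν := lt_of_le_of_lt hiξ hξ2
  have hiμ : i < μ := hiν.trans hνμ
  -- cross relations
  have hcross : ∀ x ∈ (c ν).p, ∀ y ∈ (c μ).p, R E x y := by
    intro x hx y hy
    by_cases hxl : top x.1 < ν
    · have : x ∈ low μ := hlow ▸ (⟨hx, hxl⟩ : x ∈ low ν)
      exact (c μ).rel x this.1 y hy
    by_cases hyl : top y.1 < μ
    · have : y ∈ low ν := hlow ▸ (⟨hy, hyl⟩ : y ∈ low μ)
      exact (c ν).rel x hx y this.1
    have hxp : (res (g ν) x.1, res (g ν) x.2) ∈ pat μ := by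
      rw [← hpat]; exact ⟨x, ⟨hx, hxl⟩, rfl⟩
    obtain ⟨x', ⟨hx', _⟩, hxe⟩ := hxp
    simp only [Prod.mk.injEq] at hxe
    rw [hνg, hμg] at hxe
    have ha1 : agree γ x.1 x'.1 := (res_eq_iff.1 hxe.1).symm
    have ha2 : agree γ x.2 x'.2 := (res_eq_iff.1 hxe.2).symm
    have hrel := (c μ).rel x' hx' y hy
    by_cases hag : agree γ x.1 y.1
    · have hag' : agree γ x.2 y.2 :=
        ha2.trans ((hrel.1 γ hγE).1 (ha1.symm.trans hag))
      apply R_of_diff (i := i)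
      · intro η hη
        rcases lt_or_ge η γ with h1 | h1
        · exact hag η h1
        · rw [(hν3 x hx hxl η h1 (hη.trans hiν)).1, (hμ3 y hy hyl η h1 (hη.trans hiμ)).1,
            hi2 η h1 hη]
      · intro η hη
        rcases lt_or_ge η γ with h1 | h1
        · exact hag' η h1
        · rw [(hν3 x hx hxl η h1 (hη.trans hiν)).2, (hμ3 y hy hyl η h1 (hη.trans hiμ)).2,
            hi2 η h1 hη]
      · rw [(hν3 x hx hxl i hi1.1 hiν).1, (hν3 x hx hxl i hi1.1 hiν).2]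
      · rw [(hμ3 y hy hyl i hi1.1 hiμ).1, (hμ3 y hy hyl i hi1.1 hiμ).2]
      · rw [(hν3 x hx hxl i hi1.1 hiν).1, (hμ3 y hy hyl i hi1.1 hiμ).1]
        intro h
        apply hi1.2
        exact_mod_cast add_right_cancel h
    · have hag' : ¬ agree γ x.2 y.2 := fun h =>
        hag (ha1.trans ((hrel.1 γ hγE).2 (ha2.symm.trans h)))
      refine ⟨fun ε hε => ?_, ?_, ?_⟩
      · rcases le_or_gt ε γ with hle | hlt
        · constructor
          · intro h
            exact (ha2.mono hle).trans ((hrel.1 ε hε).1 ((ha1.symm.mono hle).trans h))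
          · intro h
            exact (ha1.mono hle).trans ((hrel.1 ε hε).2 ((ha2.symm.mono hle).trans h))
        · exact ⟨fun h => absurd (h.mono hlt.le) hag, fun h => absurd (h.mono hlt.le) hag'⟩
      · calc x.1 < y.1 ↔ x'.1 < y.1 := lt_congr_left ha1 hag
          _ ↔ x'.2 < y.2 := hrel.2.1
          _ ↔ x.2 < y.2 := (lt_congr_left ha2 hag').symm
      · calc y.1 < x.1 ↔ y.1 < x'.1 := lt_congr_right ha1 hag
          _ ↔ y.2 < x'.2 := hrel.2.2
          _ ↔ y.2 < x.2 := (lt_congr_right ha2 hag').symm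
  -- the union is a common extension
  have hcompat : Compat (c ν) (c μ) := by
    refine ⟨⟨(c ν).p ∪ (c μ).p, ?_, ?_⟩, Finset.subset_union_left, Finset.subset_union_right⟩
    · intro x hx
      rcases Finset.mem_union.1 hx with h | h
      · exact (c ν).mem x h
      · exact (c μ).mem x h
    · intro x hx y hy
      rcases Finset.mem_union.1 hx with h | h <;> rcases Finset.mem_union.1 hy with h' | h'
      · exact (c ν).rel x h y h'
      · exact hcross x h y h'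
      · exact (hcross y h' x h).symm
      · exact (c μ).rel x h y h'
  exact h𝒜 (c ν) (ι ν).2 (c μ) (ι μ).2 (fun h => hνμ.ne (hcinj h)) hcompat

/-! ### The isomorphism theorem -/

lemma mk_T_le : #T ≤ ℵ₁ := by
  have h1 : T ⊆ ⋃ w : W, {t ∈ T | top t < sc w} := by
    intro t ht
    exact mem_iUnion.2 ⟨top t, ht, lt_sc _⟩
  calc #T ≤ #(⋃ w : W, {t ∈ T | top t < sc w} : Set F) := mk_le_mk_of_subset h1
    _ ≤ #W * ⨆ w : W, #({t ∈ T | top t < sc w} : Set F) := mk_iUnion_le _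
    _ ≤ ℵ₁ * ℵ₀ := by
        rw [mk_W]
        refine mul_le_mul' le_rfl (ciSup_le' fun w => ?_)
        exact Cardinal.le_aleph0_iff_set_countable.2 (countable_low _)
    _ = ℵ₁ := by
        rw [Cardinal.mul_eq_left (aleph0_le_aleph 1) (aleph0_le_aleph 1) aleph0_ne_zero]

/-- Under Martin's axiom any two closed sets of nodes are order isomorphic. -/
theorem iso_of_MA (hMA : MartinAxiom) {A B : Set F} (hA : Cl A) (hB : Cl B) :
    Nonempty (A ≃o B) := by
  classical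
  obtain ⟨h, hE, hgA, hgB⟩ := exists_good hA hB
  set E := EE h with hEdef
  let DA : F → Set (Cond E A B) := fun a => {q | ∃ x ∈ q.p, x.1 = a}
  let DB : F → Set (Cond E A B) := fun b => {q | ∃ x ∈ q.p, x.2 = b}
  have hcard : #(DA '' A ∪ DB '' B : Set (Set (Cond E A B))) ≤ ℵ₁ := by
    refine (mk_union_le _ _).trans ?_
    have h1 : #(DA '' A) ≤ ℵ₁ := mk_image_le.trans ((mk_le_mk_of_subset hA.sub).trans mk_T_le)
    have h2 : #(DB '' B) ≤ ℵ₁ := mk_image_le.trans ((mk_le_mk_of_subset hB.sub).trans mk_T_le)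
    refine (add_le_add h1 h2).trans ?_
    rw [Cardinal.add_eq_self (aleph0_le_aleph 1)]
  obtain ⟨G, hG, hGD⟩ := hMA (Cond E A B) (ccc hE hA.sub hB.sub) (DA '' A ∪ DB '' B) hcard (by
    rintro D (⟨a, ha, rfl⟩ | ⟨b, hb, rfl⟩)
    · intro p
      obtain ⟨b, hb, hsl, hr⟩ := extension hE hgA hgB p.p p.mem p.rel a ha
      refine ⟨⟨insert (a, b) p.p, ?_, ?_⟩, ⟨(a, b), Finset.mem_insert_self _ _, rfl⟩,
        Finset.subset_insert _ _⟩
      · intro x hx
        rcases Finset.mem_insert.1 hx with rfl | hx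
        · exact ⟨ha, hb, hsl⟩
        · exact p.mem x hx
      · intro x hx y hy
        rcases Finset.mem_insert.1 hx with rfl | hx <;> rcases Finset.mem_insert.1 hy with rfl | hy
        · exact R.refl _ _
        · exact (hr y hy).symm
        · exact hr x hx
        · exact p.rel x hx y hy
    · intro p
      obtain ⟨a, ha, hsl, hr⟩ := extension hE hgB hgA (p.p.image Prod.swap)
        (by
          intro x hx
          obtain ⟨y, hy, rfl⟩ := Finset.mem_image.1 hx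
          obtain ⟨h1, h2, h3⟩ := p.mem y hy
          exact ⟨h2, h1, fun ε hε => (h3 ε hε).symm⟩)
        (by
          intro x hx y hy
          obtain ⟨x', hx', rfl⟩ := Finset.mem_image.1 hx
          obtain ⟨y', hy', rfl⟩ := Finset.mem_image.1 hy
          exact (p.rel x' hx' y' hy').swap) b hb
      have hr' : ∀ x ∈ p.p, R E x (a, b) := by
        intro x hx
        have := (hr x.swap (Finset.mem_image_of_mem _ hx)).swap
        simpa using this
      refine ⟨⟨insert (a, b) p.p, ?_, ?_⟩, ⟨(a, b), Finset.mem_insert_self _ _, rfl⟩,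
        Finset.subset_insert _ _⟩
      · intro x hx
        rcases Finset.mem_insert.1 hx with rfl | hx
        · exact ⟨ha, hb, fun ε hε => (hsl ε hε).symm⟩
        · exact p.mem x hx
      · intro x hx y hy
        rcases Finset.mem_insert.1 hx with rfl | hx <;> rcases Finset.mem_insert.1 hy with rfl | hy
        · exact R.refl _ _
        · exact (hr' y hy).symm
        · exact hr' x hx
        · exact p.rel x hx y hy)
  -- pairs in the generic filter are related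
  have hrel : ∀ x y : F × F, (∃ q ∈ G, x ∈ q.p) → (∃ q ∈ G, y ∈ q.p) → R E x y := by
    rintro x y ⟨q, hq, hx⟩ ⟨q', hq', hy⟩
    obtain ⟨r, _, h1, h2⟩ := hG.dir q hq q' hq'
    exact r.rel x (h1 hx) y (h2 hy)
  have hf : ∀ a : A, ∃ x : F × F, (∃ q ∈ G, x ∈ q.p) ∧ x.1 = a.1 := by
    intro a
    obtain ⟨q, hqG, x, hx, hxa⟩ := hGD (DA a.1) (Or.inl (mem_image_of_mem _ a.2))
    exact ⟨x, ⟨q, hqG, hx⟩, hxa⟩
  choose f hf1 hf2 using hf
  have hfB : ∀ a, (f a).2 ∈ B := by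
    intro a
    obtain ⟨q, _, hx⟩ := hf1 a
    exact (q.mem _ hx).2.1
  let φ : A → B := fun a => ⟨(f a).2, hfB a⟩
  have hmono : StrictMono φ := by
    intro a a' haa
    have h1 := (hrel (f a) (f a') (hf1 a) (hf1 a')).2.1
    rw [hf2 a, hf2 a'] at h1
    exact h1.1 haa
  have hsurj : Function.Surjective φ := by
    intro b
    obtain ⟨q, hqG, x, hx, hxb⟩ := hGD (DB b.1) (Or.inr (mem_image_of_mem _ b.2))
    have hxA : x.1 ∈ A := (q.mem x hx).1
    refine ⟨⟨x.1, hxA⟩, Subtype.ext ?_⟩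
    have h1 := (hrel (f ⟨x.1, hxA⟩) x (hf1 _) ⟨q, hqG, hx⟩).eq_iff
    have h2 := h1.1 (hf2 ⟨x.1, hxA⟩)
    show (f ⟨x.1, hxA⟩).2 = b.1
    rw [h2, hxb]
  exact ⟨hmono.orderIsoOfSurjective φ hsurj⟩

end Pool.Agent.H78.SS
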