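import Mathlib

set_option autoImplicit false

/-!
Definitions for MP_5db220_lc: strongly surjective linear orders, Aronszajn lines, Martin's axiom for
`ℵ₁` dense sets, and Baumgartner's axiom.
-/

namespace Pool.Agent.H78.SS

open Set Cardinal

/-! ### Linear orders -/

/-- `L ↠ K`: there is a weakly order preserving surjection of `L` onto `K`. -/
def Onto (L K : Type) [LinearOrder L] [LinearOrder K] : Prop :=
  ∃ f : L → K, Monotone f ∧ Function.Surjective f

/-- `L` is strongly surjective: `L ↠ K` for each (nonempty) suborder `K` of `L`. -/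
def StronglySurjective (L : Type) [LinearOrder L] : Prop :=
  ∀ K : Set L, K.Nonempty → Onto L K

/-- `L` is an Aronszajn line: uncountable, without suborders isomorphic to `ω₁`, to the reverse of
`ω₁`, or to an uncountable set of reals. -/
structure IsAronszajnLine (L : Type) [LinearOrder L] : Prop where
  uncountable : Uncountable L
  omega1 : IsEmpty ((Ordinal.omega.{0} 1).ToType ↪o L)
  omega1_dual : IsEmpty ((Ordinal.omega.{0} 1).ToTypeᵒᵈ ↪o L)
  real : ∀ X : Set ℝ, ¬ X.Countable → IsEmpty (X ↪o L)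

/-! ### Martin's axiom -/

/-- `p` and `q` have a common extension. -/
def Compat {P : Type} [PartialOrder P] (p q : P) : Prop := ∃ r, r ≤ p ∧ r ≤ q

/-- The countable chain condition: antichains (sets of pairwise incompatible elements) are
countable. -/
def CCC (P : Type) [PartialOrder P] : Prop :=
  ∀ A : Set P, (∀ p ∈ A, ∀ q ∈ A, p ≠ q → ¬ Compat p q) → A.Countable

/-- Dense subsets of a poset. -/
def DenseIn {P : Type} [PartialOrder P] (D : Set P) : Prop := ∀ p, ∃ q ∈ D, q ≤ p

/-- Filters of a poset. -/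
structure FilterIn {P : Type} [PartialOrder P] (G : Set P) : Prop where
  ne : G.Nonempty
  up : ∀ p ∈ G, ∀ q, p ≤ q → q ∈ G
  dir : ∀ p ∈ G, ∀ q ∈ G, ∃ r ∈ G, r ≤ p ∧ r ≤ q

/-- Martin's axiom for `ℵ₁` dense sets (`MA_ℵ₁`). -/
def MartinAxiom : Prop :=
  ∀ (P : Type) [PartialOrder P] [Nonempty P], CCC P → ∀ 𝒟 : Set (Set P), #𝒟 ≤ ℵ₁ →
    (∀ D ∈ 𝒟, DenseIn D) → ∃ G : Set P, FilterIn G ∧ ∀ D ∈ 𝒟, (G ∩ D).Nonempty

/-! ### Baumgartner's axiom -/

/-- A set of reals meeting every open interval in exactly `ℵ₁` points. -/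
def Aleph1Dense (A : Set ℝ) : Prop := ∀ a b : ℝ, a < b → #(A ∩ Ioo a b : Set ℝ) = ℵ₁

/-- Baumgartner's axiom (`BA`): all `ℵ₁`-dense sets of reals are order isomorphic. -/
def BaumgartnerAxiom : Prop :=
  ∀ A B : Set ℝ, Aleph1Dense A → Aleph1Dense B → Nonempty (A ≃o B)

end Pool.Agent.H78.SS
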