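import Pool.Agent.H78.SS.Tree

set_option autoImplicit false

/-!
Sets of nodes closed under extensions, and the club of levels.
-/

namespace Pool.Agent.H78.SS

open Set Cardinal

/-- successor -/
noncomputable def sc (w : W) : W :=
  WellFounded.min (wellFounded_lt (α := W)) {v | w < v} (exists_gt' w)

lemma lt_sc (w : W) : w < sc w := WellFounded.min_mem _ {v | w < v} (exists_gt' w)

lemma sc_le {w v : W} (h : w < v) : sc w ≤ v :=
  not_lt.1 (WellFounded.not_lt_min (wellFounded_lt (α := W)) {v | w < v} h)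

lemma lt_sc_iff {w v : W} : v < sc w ↔ v ≤ w :=
  ⟨fun h => not_lt.1 fun hw => absurd h (not_lt.2 (sc_le hw)), fun h => lt_of_le_of_lt h (lt_sc w)⟩

open Classical in
/-- extend the node `b` to a node with last index `α`, with value `q` at the first new index -/
noncomputable def glue (b : F) (α : W) (q : ℤ) : F := fun η =>
  if η ≤ top b then b η else if η ≤ α then (if η = sc (top b) then q else (e α η : ℤ) + 2) else 0

lemma glue_of_le {b : F} {α : W} {q : ℤ} {η : W} (h : η ≤ top b) : glue b α q η = b η := if_pos h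

lemma glue_sc {b : F} {α : W} {q : ℤ} (h : top b < α) : glue b α q (sc (top b)) = q := by
  unfold glue
  rw [if_neg (not_le.2 (lt_sc _)), if_pos (sc_le h), if_pos rfl]

lemma glue_other {b : F} {α : W} {q : ℤ} {η : W} (h : top b < η) (h1 : η ≤ α)
    (h2 : η ≠ sc (top b)) : glue b α q η = (e α η : ℤ) + 2 := by
  unfold glue
  rw [if_neg (not_le.2 h), if_pos h1, if_neg h2]

lemma glue_zero {b : F} {α : W} {q : ℤ} {η : W} (h : top b < η) (h1 : α < η) :
    glue b α q η = 0 := by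
  unfold glue
  rw [if_neg (not_le.2 h), if_neg (not_le.2 h1)]

lemma glue_node {b : F} (hb : b ∈ T) {α : W} {q : ℤ} (hα : top b < α) (hq : q ≠ 0) :
    IsNode (glue b α q) α := by
  constructor
  · intro η
    rcases le_or_gt η (top b) with h | h
    · rw [glue_of_le h]
      exact ⟨fun _ => h.trans hα.le, fun _ => (ne_zero_iff hb η).2 h⟩
    · rcases le_or_gt η α with h1 | h1
      · refine ⟨fun _ => h1, fun _ => ?_⟩
        by_cases h2 : η = sc (top b)
        · rw [h2, glue_sc hα]; exact hq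
        · rw [glue_other h h1 h2]; positivity
      · rw [glue_zero h h1]
        exact ⟨fun h2 => absurd rfl h2, fun h2 => absurd h2 (not_le.2 h1)⟩
  · refine ((((top_spec hb).2).union (e_coh hα.le)).union
      ((finite_singleton (top b)).union (finite_singleton (sc (top b))))).subset ?_
    rintro η ⟨h1, h2⟩
    rcases lt_trichotomy η (top b) with h | h | h
    · left
      rw [glue_of_le h.le] at h2
      by_cases h3 : b η = (e (top b) η : ℤ) + 2
      · right
        refine ⟨h, fun h4 => h2 ?_⟩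
        rw [h3, h4]
      · left; exact ⟨h, h3⟩
    · right; left; exact h
    · right; right
      by_contra h3
      exact h2 (glue_other h h1.le h3)

lemma glue_mem {b : F} (hb : b ∈ T) {α : W} {q : ℤ} (hα : top b < α) (hq : q ≠ 0) :
    glue b α q ∈ T := ⟨α, glue_node hb hα hq⟩

lemma top_glue {b : F} (hb : b ∈ T) {α : W} {q : ℤ} (hα : top b < α) (hq : q ≠ 0) :
    top (glue b α q) = α := top_eq (glue_node hb hα hq)

lemma agree_glue {b : F} {α : W} {q : ℤ} : agree (sc (top b)) b (glue b α q) := by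
  intro η hη
  rw [glue_of_le (lt_sc_iff.1 hη)]

lemma b_sc {b : F} (hb : b ∈ T) : b (sc (top b)) = 0 := (eq_zero_iff hb _).2 (lt_sc _)

lemma lt_glue {b : F} (hb : b ∈ T) {α : W} {q : ℤ} (hα : top b < α) (hq : 0 < q) :
    b < glue b α q := by
  refine ⟨sc (top b), agree_glue, ?_⟩
  show b (sc (top b)) < glue b α q (sc (top b))
  rw [glue_sc hα, b_sc hb]
  exact hq

lemma glue_lt {b : F} (hb : b ∈ T) {α : W} {q : ℤ} (hα : top b < α) (hq : q < 0) :
    glue b α q < b := by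
  refine ⟨sc (top b), agree_glue.symm, ?_⟩
  show glue b α q (sc (top b)) < b (sc (top b))
  rw [glue_sc hα, b_sc hb]
  exact hq

/-- A nonempty set of nodes closed under end extensions avoiding the value `1`. -/
structure Cl (B : Set F) : Prop where
  sub : B ⊆ T
  ne : B.Nonempty
  ext : ∀ b ∈ B, ∀ s ∈ T, (∀ η ≤ top b, s η = b η) → (∀ η, top b < η → s η ≠ 1) → s ∈ B

lemma Cl.glue_mem {B : Set F} (hB : Cl B) {b : F} (hb : b ∈ B) {α : W} {q : ℤ} (hα : top b < α)
    (hq : q ≠ 0) (hq1 : q ≠ 1) : glue b α q ∈ B := by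
  refine hB.ext b hb _ (Pool.Agent.H78.SS.glue_mem (hB.sub hb) hα hq)
    (fun η hη => glue_of_le hη) ?_
  intro η hη
  rcases le_or_gt η α with h1 | h1
  · by_cases h2 : η = sc (top b)
    · rw [h2, glue_sc hα]; exact hq1
    · rw [glue_other hη h1 h2]; omega
  · rw [glue_zero hη h1]; norm_num

/-- bounding function for `B` -/
lemma Cl.exists_bound {B : Set F} (hB : Cl B) (β : W) : ∃ γ, ∀ b ∈ B, β ≤ top b →
    (∃ c ∈ B, agree β b c ∧ b < c ∧ top c < γ) ∧ (∃ c ∈ B, agree β b c ∧ c < b ∧ top c < γ) := by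
  classical
  obtain ⟨R, hR1, hR2, hR3⟩ := exists_reps β {b ∈ B | β ≤ top b}
    (fun b hb => hB.sub hb.1)
  have h1 : ∀ r : F, ∃ C ⊆ {c ∈ B | agree β r c}, C.Countable ∧
      ∀ x ∈ {c ∈ B | agree β r c}, ∃ c ∈ C, x ≤ c :=
    fun r => exists_cof _ (fun c hc => hB.sub hc.1)
  have h2 : ∀ r : F, ∃ C ⊆ {c ∈ B | agree β r c}, C.Countable ∧
      ∀ x ∈ {c ∈ B | agree β r c}, ∃ c ∈ C, c ≤ x :=
    fun r => exists_coinit _ (fun c hc => hB.sub hc.1)
  choose C hC1 hC2 hC3 using h1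
  choose D hD1 hD2 hD3 using h2
  have hcount : ((⋃ r ∈ R, C r) ∪ ⋃ r ∈ R, D r).Countable :=
    (hR2.biUnion fun r _ => hC2 r).union (hR2.biUnion fun r _ => hD2 r)
  obtain ⟨γ, hγ⟩ := exists_gt (hcount.image top)
  refine ⟨γ, fun b hb hβ => ?_⟩
  obtain ⟨r, hr, hrb⟩ := hR3 b ⟨hb, hβ⟩
  have hle : β ≤ sc (top b) := hβ.trans (lt_sc _).le
  constructor
  · have hb' := hB.glue_mem hb (lt_sc (top b)) (q := 2) (by norm_num) (by norm_num)
    have hag : agree β b (glue b (sc (top b)) 2) := agree_glue.mono hle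
    obtain ⟨c, hc, hlt⟩ := hC3 r (glue b (sc (top b)) 2) ⟨hb', hrb.symm.trans hag⟩
    obtain ⟨hcB, hcr⟩ := hC1 r hc
    refine ⟨c, hcB, hrb.trans hcr, ?_, hγ _ ⟨c, Or.inl (mem_biUnion hr hc), rfl⟩⟩
    exact lt_of_lt_of_le (lt_glue (hB.sub hb) (lt_sc _) (by norm_num)) hlt
  · have hb' := hB.glue_mem hb (lt_sc (top b)) (q := -1) (by norm_num) (by norm_num)
    have hag : agree β b (glue b (sc (top b)) (-1)) := agree_glue.mono hle
    obtain ⟨c, hc, hlt⟩ := hD3 r (glue b (sc (top b)) (-1)) ⟨hb', hrb.symm.trans hag⟩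
    obtain ⟨hcB, hcr⟩ := hD1 r hc
    refine ⟨c, hcB, hrb.trans hcr, ?_, hγ _ ⟨c, Or.inr (mem_biUnion hr hc), rfl⟩⟩
    exact lt_of_le_of_lt hlt (glue_lt (hB.sub hb) (lt_sc _) (by norm_num))

/-! ### Closure points -/

/-- closure points of `h` -/
def EE (h : W → W) : Set W := {δ | ∀ β < δ, h β < δ}

lemma EE_unbounded (h : W → W) (w : W) : ∃ δ ∈ EE h, w < δ := by
  have h1 : ∀ v : W, ∃ u, v < u ∧ ∀ β ≤ v, h β < u := by
    intro v
    obtain ⟨u, hu⟩ := exists_gt (((countable_Iic v).image h).insert v)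
    exact ⟨u, hu v (mem_insert _ _), fun β hβ => hu _ (mem_insert_of_mem _ ⟨β, hβ, rfl⟩)⟩
  choose N hN1 hN2 using h1
  let d : ℕ → W := fun n => N^[n + 1] w
  have hd : ∀ n, d (n + 1) = N (d n) := fun n => Function.iterate_succ_apply' N (n + 1) w
  have hwd : w < d 0 := hN1 w
  have hne : {u : W | ∀ n, d n < u}.Nonempty := by
    obtain ⟨u, hu⟩ := exists_gt (countable_range d)
    exact ⟨u, fun n => hu _ ⟨n, rfl⟩⟩
  set δ := WellFounded.min (wellFounded_lt (α := W)) _ hne with hδ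
  have hmem : ∀ n, d n < δ := WellFounded.min_mem (wellFounded_lt (α := W)) _ hne
  refine ⟨δ, ?_, hwd.trans (hmem 0)⟩
  intro β hβ
  have : ∃ n, β ≤ d n := by
    by_contra hc
    push Not at hc
    exact WellFounded.not_lt_min (wellFounded_lt (α := W)) {u : W | ∀ n, d n < u} hc hβ
  obtain ⟨n, hn⟩ := this
  calc h β < N (d n) := hN2 (d n) β hn
    _ = d (n + 1) := (hd n).symm
    _ < δ := hmem (n + 1)

lemma EE_floor (h : W → W) (α : W) : ∃ δ ∈ EE h, δ ≤ α ∧ ∀ ε ∈ EE h, ε ≤ α → ε ≤ δ := by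
  have hne : {u : W | ∀ ε ∈ EE h, ε ≤ α → ε ≤ u}.Nonempty := ⟨α, fun ε _ hε => hε⟩
  set δ := WellFounded.min (wellFounded_lt (α := W)) _ hne with hδ
  have hmem : ∀ ε ∈ EE h, ε ≤ α → ε ≤ δ := WellFounded.min_mem (wellFounded_lt (α := W)) _ hne
  have hle : δ ≤ α := not_lt.1 (WellFounded.not_lt_min (wellFounded_lt (α := W))
    {u : W | ∀ ε ∈ EE h, ε ≤ α → ε ≤ u} (x := α) (fun ε _ hε => hε))
  refine ⟨δ, ?_, hle, hmem⟩
  intro β hβ
  have : ∃ ε ∈ EE h, ε ≤ α ∧ β < ε := by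
    by_contra hc
    push Not at hc
    exact WellFounded.not_lt_min (wellFounded_lt (α := W))
      {u : W | ∀ ε ∈ EE h, ε ≤ α → ε ≤ u} hc hβ
  obtain ⟨ε, hε, hεα, hβε⟩ := this
  exact lt_of_lt_of_le (hε β hβε) (hmem ε hε hεα)

/-! ### Good sets -/

/-- `E` is a closed unbounded set of limit levels. -/
structure GoodE (E : Set W) : Prop where
  floor : ∀ α, ∃ δ ∈ E, δ ≤ α ∧ ∀ ε ∈ E, ε ≤ α → ε ≤ δ
  unb : ∀ w, ∃ δ ∈ E, w < δ
  lim : ∀ δ ∈ E, ∀ β < δ, sc β < δ

/-- What is needed of a set of nodes relative to `E`. -/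
structure Good (E : Set W) (B : Set F) : Prop where
  sub : B ⊆ T
  ne : B.Nonempty
  up : ∀ b ∈ B, ∀ δ ∈ E, δ ≤ top b → ∃ c ∈ B, agree δ b c ∧ b < c ∧ ∀ ε ∈ E, δ < ε → top c < ε
  dn : ∀ b ∈ B, ∀ δ ∈ E, δ ≤ top b → ∃ c ∈ B, agree δ b c ∧ c < b ∧ ∀ ε ∈ E, δ < ε → top c < ε
  btw : ∀ b ∈ B, ∀ b' ∈ B, b < b' → ∀ ε ∈ E, ¬ agree ε b b' → ∃ c ∈ B, b < c ∧ c < b' ∧ top c < ε
  tall : ∀ c ∈ B, ∀ c' ∈ B, c < c' → ∀ v, ∃ b ∈ B, c < b ∧ b < c' ∧ v ≤ top b

lemma Cl.tall {B : Set F} (hB : Cl B) {c c' : F} (hc : c ∈ B) (hc' : c' ∈ B) (h : c < c')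
    (v : W) : ∃ b ∈ B, c < b ∧ b < c' ∧ v ≤ top b := by
  obtain ⟨i, h1, h2⟩ := h
  rcases le_or_gt i (top c) with hi | hi
  · -- use an extension of c
    have hα : top c < max v (sc (top c)) := lt_of_lt_of_le (lt_sc _) (le_max_right _ _)
    refine ⟨glue c (max v (sc (top c))) 2, hB.glue_mem hc hα (by norm_num) (by norm_num),
      lt_glue (hB.sub hc) hα (by norm_num), ⟨i, fun j hj => ?_, ?_⟩, ?_⟩
    · show glue c _ 2 j = c' j
      rw [glue_of_le (hj.le.trans hi)]
      exact h1 j hj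
    · show glue c _ 2 i < c' i
      rw [glue_of_le hi]
      exact h2
    · rw [top_glue (hB.sub hc) hα (by norm_num)]
      exact le_max_left _ _
  · -- c' extends c at i
    have hci : c i = 0 := (eq_zero_iff (hB.sub hc) i).2 hi
    have h2' : c i < c' i := h2
    have hic' : i ≤ top c' := by
      rw [← ne_zero_iff (hB.sub hc')]
      rw [hci] at h2'
      exact h2'.ne'
    have hα : top c' < max v (sc (top c')) := lt_of_lt_of_le (lt_sc _) (le_max_right _ _)
    refine ⟨glue c' (max v (sc (top c'))) (-1), hB.glue_mem hc' hα (by norm_num) (by norm_num),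
      ⟨i, fun j hj => ?_, ?_⟩, glue_lt (hB.sub hc') hα (by norm_num), ?_⟩
    · show c j = glue c' _ (-1) j
      rw [glue_of_le (hj.le.trans hic')]
      exact h1 j hj
    · show c i < glue c' _ (-1) i
      rw [glue_of_le hic']
      exact h2
    · rw [top_glue (hB.sub hc') hα (by norm_num)]
      exact le_max_left _ _

lemma Cl.good {B : Set F} (hB : Cl B) (h : W → W)
    (hh : ∀ β, ∀ b ∈ B, β ≤ top b →
      (∃ c ∈ B, agree β b c ∧ b < c ∧ top c < h β) ∧ (∃ c ∈ B, agree β b c ∧ c < b ∧ top c < h β))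
    (hs : ∀ β, sc β ≤ h β) : Good (EE h) B where
  sub := hB.sub
  ne := hB.ne
  up := by
    intro b hb δ _ hδb
    obtain ⟨c, hc, h1, h2, h3⟩ := (hh δ b hb hδb).1
    exact ⟨c, hc, h1, h2, fun ε hε hδε => h3.trans (hε δ hδε)⟩
  dn := by
    intro b hb δ _ hδb
    obtain ⟨c, hc, h1, h2, h3⟩ := (hh δ b hb hδb).2
    exact ⟨c, hc, h1, h2, fun ε hε hδε => h3.trans (hε δ hδε)⟩
  btw := by
    intro b hb b' hb' hlt ε hε hna
    obtain ⟨i, h1, h2⟩ := hlt
    have h2' : b i < b' i := h2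
    have hi : i < ε := by
      by_contra hc
      exact hna (fun η hη => h1 η (lt_of_lt_of_le hη (not_lt.1 hc)))
    have hsi : sc i < ε := lt_of_le_of_lt (hs i) (hε i hi)
    rcases le_or_gt i (top b) with hib | hib
    · rcases eq_or_lt_of_le hib with hib' | hib'
      · -- i = top b
        have hα : top b < sc (top b) := lt_sc _
        refine ⟨glue b (sc (top b)) 2, hB.glue_mem hb hα (by norm_num) (by norm_num),
          lt_glue (hB.sub hb) hα (by norm_num), ⟨i, fun j hj => ?_, ?_⟩, ?_⟩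
        · show glue b _ 2 j = b' j
          rw [glue_of_le (hj.le.trans hib)]
          exact h1 j hj
        · show glue b _ 2 i < b' i
          rw [glue_of_le hib]
          exact h2
        · rw [top_glue (hB.sub hb) hα (by norm_num), ← hib']
          exact hsi
      · obtain ⟨c, hc, hc1, hc2, hc3⟩ := (hh (sc i) b hb (sc_le hib')).1
        refine ⟨c, hc, hc2, ⟨i, fun j hj => ?_, ?_⟩, hc3.trans (hε _ hsi)⟩
        · show c j = b' j
          rw [← hc1 j (hj.trans (lt_sc i))]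
          exact h1 j hj
        · show c i < b' i
          rw [← hc1 i (lt_sc i)]
          exact h2
    · have hbi : b i = 0 := (eq_zero_iff (hB.sub hb) i).2 hib
      have hib' : i ≤ top b' := by
        rw [← ne_zero_iff (hB.sub hb')]
        rw [hbi] at h2'
        exact h2'.ne'
      rcases eq_or_lt_of_le hib' with hib'' | hib''
      · have hα : top b' < sc (top b') := lt_sc _
        refine ⟨glue b' (sc (top b')) (-1), hB.glue_mem hb' hα (by norm_num) (by norm_num),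
          ⟨i, fun j hj => ?_, ?_⟩, glue_lt (hB.sub hb') hα (by norm_num), ?_⟩
        · show b j = glue b' _ (-1) j
          rw [glue_of_le (hj.le.trans hib')]
          exact h1 j hj
        · show b i < glue b' _ (-1) i
          rw [glue_of_le hib']
          exact h2
        · rw [top_glue (hB.sub hb') hα (by norm_num), ← hib'']
          exact hsi
      · obtain ⟨c, hc, hc1, hc2, hc3⟩ := (hh (sc i) b' hb' (sc_le hib'')).2
        refine ⟨c, hc, ⟨i, fun j hj => ?_, ?_⟩, hc2, hc3.trans (hε _ hsi)⟩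
        · show b j = c j
          rw [← hc1 j (hj.trans (lt_sc i))]
          exact h1 j hj
        · show b i < c i
          rw [← hc1 i (lt_sc i)]
          exact h2
  tall := fun c hc c' hc' hlt v => hB.tall hc hc' hlt v

/-- Two closed sets are good for a common club. -/
lemma exists_good {A B : Set F} (hA : Cl A) (hB : Cl B) :
    ∃ h : W → W, GoodE (EE h) ∧ Good (EE h) A ∧ Good (EE h) B := by
  choose a ha using hA.exists_bound
  choose b hb using hB.exists_bound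
  let h : W → W := fun β => max (max (a β) (b β)) (sc β)
  have h1 : ∀ β, a β ≤ h β := fun β => (le_max_left _ _).trans (le_max_left _ _)
  have h2 : ∀ β, b β ≤ h β := fun β => (le_max_right _ _).trans (le_max_left _ _)
  have h3 : ∀ β, sc β ≤ h β := fun β => le_max_right _ _
  refine ⟨h, ⟨EE_floor h, EE_unbounded h, fun δ hδ β hβ => lt_of_le_of_lt (h3 β) (hδ β hβ)⟩,
    hA.good h ?_ h3, hB.good h ?_ h3⟩
  · intro β x hx hβ
    obtain ⟨⟨c, hc, u1, u2, u3⟩, ⟨c', hc', v1, v2, v3⟩⟩ := ha β x hx hβ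
    exact ⟨⟨c, hc, u1, u2, lt_of_lt_of_le u3 (h1 β)⟩, ⟨c', hc', v1, v2, lt_of_lt_of_le v3 (h1 β)⟩⟩
  · intro β x hx hβ
    obtain ⟨⟨c, hc, u1, u2, u3⟩, ⟨c', hc', v1, v2, v3⟩⟩ := hb β x hx hβ
    exact ⟨⟨c, hc, u1, u2, lt_of_lt_of_le u3 (h2 β)⟩, ⟨c', hc', v1, v2, lt_of_lt_of_le v3 (h2 β)⟩⟩

end Pool.Agent.H78.SS
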