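import Pool.Agent.H78.SS.Good
import Pool.Agent.H78.SS.Defs

set_option autoImplicit false

/-!
Martin's axiom and the isomorphism theorem.
-/

namespace Pool.Agent.H78.SS

open Set Cardinal

/-! ### The relation -/

/-- compatibility of two pairs -/
def R (E : Set W) (x y : F × F) : Prop :=
  (∀ ε ∈ E, agree ε x.1 y.1 ↔ agree ε x.2 y.2) ∧ (x.1 < y.1 ↔ x.2 < y.2) ∧
    (y.1 < x.1 ↔ y.2 < x.2)

/-- the two nodes are on the same level -/
def SL (E : Set W) (x : F × F) : Prop := ∀ ε ∈ E, ε ≤ top x.1 ↔ ε ≤ top x.2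

lemma R.refl (E : Set W) (x : F × F) : R E x x :=
  ⟨fun _ _ => ⟨fun _ => agree.refl _ _, fun _ => agree.refl _ _⟩,
    ⟨fun h => absurd h (lt_irrefl _), fun h => absurd h (lt_irrefl _)⟩,
    ⟨fun h => absurd h (lt_irrefl _), fun h => absurd h (lt_irrefl _)⟩⟩

lemma R.symm {E : Set W} {x y : F × F} (h : R E x y) : R E y x :=
  ⟨fun ε hε => ⟨fun ha => ((h.1 ε hε).1 ha.symm).symm, fun ha => ((h.1 ε hε).2 ha.symm).symm⟩,
    h.2.2, h.2.1⟩

lemma R.swap {E : Set W} {x y : F × F} (h : R E x y) : R E x.swap y.swap :=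
  ⟨fun ε hε => (h.1 ε hε).symm, h.2.1.symm, h.2.2.symm⟩

lemma R.eq_iff {E : Set W} {x y : F × F} (h : R E x y) : x.1 = y.1 ↔ x.2 = y.2 := by
  constructor
  · intro h1
    by_contra h2
    rcases lt_or_gt_of_ne h2 with h3 | h3
    · exact (h.2.1.2 h3).ne h1
    · exact (h.2.2.2 h3).ne h1.symm
  · intro h1
    by_contra h2
    rcases lt_or_gt_of_ne h2 with h3 | h3
    · exact (h.2.1.1 h3).ne h1
    · exact (h.2.2.1 h3).ne h1.symm

/-! ### Levels -/

lemma le_top_of_lim {E : Set W} (hE : GoodE E) {a b : F} (ha : a ∈ T) (hb : b ∈ T) {δ : W}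
    (hδ : δ ∈ E) (h : agree δ a b) (hδa : δ ≤ top a) : δ ≤ top b := by
  by_contra hc
  rw [not_le] at hc
  have h1 : sc (top b) < δ := hE.lim δ hδ _ hc
  have h2 := le_top_of_agree ha hb h hδa _ h1
  exact absurd h2 (not_le.2 (lt_sc _))

/-- two different nodes agreeing below `δ ∈ E` are both at least as long as `δ` -/
lemma le_top_of_ne {E : Set W} (hE : GoodE E) {a b : F} (ha : a ∈ T) (hb : b ∈ T) {δ : W}
    (hδ : δ ∈ E) (h : agree δ a b) (hne : a ≠ b) : δ ≤ top a := by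
  by_contra hc
  rw [not_le] at hc
  have h1 : sc (top a) < δ := hE.lim δ hδ _ hc
  have h2 : b (sc (top a)) = 0 := by rw [← h _ h1]; exact b_sc ha
  have h3 : top b < sc (top a) := (eq_zero_iff hb _).1 h2
  apply hne
  funext η
  by_cases hη : η < δ
  · exact h η hη
  · rw [(eq_zero_iff ha η).2 (lt_of_lt_of_le hc (not_lt.1 hη)),
      (eq_zero_iff hb η).2 (lt_of_lt_of_le (h3.trans h1) (not_lt.1 hη))]

/-- The extension lemma. -/
lemma extension {E : Set W} (hE : GoodE E) {A B : Set F} (hA : Good E A) (hB : Good E B)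
    (p : Finset (F × F)) (hp : ∀ x ∈ p, x.1 ∈ A ∧ x.2 ∈ B ∧ SL E x)
    (hR : ∀ x ∈ p, ∀ y ∈ p, R E x y) (a : F) (ha : a ∈ A) :
    ∃ b ∈ B, SL E (a, b) ∧ ∀ x ∈ p, R E x (a, b) := by
  classical
  obtain ⟨lam, hlamE, hlam1, hlam2⟩ := hE.floor (top a)
  have haT := hA.sub ha
  -- level of a node with the right top
  have hSL : ∀ b ∈ B, lam ≤ top b → (∀ ε ∈ E, lam < ε → top b < ε) → SL E (a, b) := by
    intro b _ h1 h2 ε hε
    constructor
    · intro h3
      exact (hlam2 ε hε h3).trans h1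
    · intro h3
      have : ε ≤ lam := by
        by_contra hc
        exact absurd h3 (not_le.2 (h2 ε hε (not_le.1 hc)))
      exact this.trans hlam1
  by_cases hmem : ∃ x ∈ p, x.1 = a
  · obtain ⟨x, hx, rfl⟩ := hmem
    exact ⟨x.2, (hp x hx).2.1, (hp x hx).2.2, fun y hy => hR y hy x hx⟩
  push Not at hmem
  rcases p.eq_empty_or_nonempty with rfl | hpne
  · -- empty condition
    obtain ⟨b0, hb0⟩ := hB.ne
    obtain ⟨δ0, hδ0, hδ0', _⟩ := hE.floor (top b0)
    obtain ⟨c, hc, _, h2, _⟩ := hB.up b0 hb0 δ0 hδ0 hδ0'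
    obtain ⟨b1, hb1, _, _, h3⟩ := hB.tall b0 hb0 c hc h2 lam
    obtain ⟨b, hb, h4, _, h5⟩ := hB.up b1 hb1 lam hlamE h3
    refine ⟨b, hb, hSL b hb (le_top_of_lim hE (hB.sub hb1) (hB.sub hb) hlamE h4 h3) h5, ?_⟩
    intro x hx
    exact absurd hx (Finset.notMem_empty x)
  -- levels of splitting
  have hfl : ∀ x : F × F, ∃ δ ∈ E, x ∈ p → (agree δ a x.1 ∧ ∀ ε ∈ E, agree ε a x.1 → ε ≤ δ) := by
    intro x
    by_cases hx : x ∈ p
    · obtain ⟨i, hi1, hi2⟩ := exists_diff (fun h => hmem x hx h.symm : a ≠ x.1)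
      obtain ⟨δ, h1, h2, h3⟩ := hE.floor i
      refine ⟨δ, h1, fun _ => ⟨hi1.mono h2, fun ε hε hag => ?_⟩⟩
      exact h3 ε hε ((agree_iff_le hi1 hi2).1 hag)
    · exact ⟨lam, hlamE, fun h => absurd h hx⟩
  choose f hfE hf using hfl
  obtain ⟨x0, hx0, hmax⟩ := Finset.exists_max_image p f hpne
  set δ := f x0 with hδ
  have hδE : δ ∈ E := hfE x0
  have hax0 : agree δ a x0.1 := (hf x0 hx0).1
  have hnot : ∀ x ∈ p, ∀ ε ∈ E, δ < ε → ¬ agree ε a x.1 := by
    intro x hx ε hε hlt hag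
    exact absurd (((hf x hx).2 ε hε hag).trans (hmax x hx)) (not_le.2 hlt)
  have hx0A := (hp x0 hx0).1
  have hx0B := (hp x0 hx0).2.1
  have hδa : δ ≤ top a := le_top_of_ne hE haT (hA.sub hx0A) hδE hax0
    (fun h => hmem x0 hx0 h.symm)
  have hδlam : δ ≤ lam := hlam2 δ hδE hδa
  have hδx0 : δ ≤ top x0.1 := le_top_of_lim hE haT (hA.sub hx0A) hδE hax0 hδa
  have hδx0' : δ ≤ top x0.2 := ((hp x0 hx0).2.2 δ hδE).1 hδx0
  -- next level
  obtain ⟨δ1, hδ1, hδ1'⟩ := hE.unb δ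
  have hnext : ∃ δ' ∈ E, δ < δ' ∧ ∀ ε ∈ E, δ < ε → δ' ≤ ε := by
    have hne : {ε | ε ∈ E ∧ δ < ε}.Nonempty := ⟨δ1, hδ1, hδ1'⟩
    refine ⟨WellFounded.min (wellFounded_lt (α := W)) _ hne,
      (WellFounded.min_mem (wellFounded_lt (α := W)) _ hne).1,
      (WellFounded.min_mem (wellFounded_lt (α := W)) _ hne).2, fun ε hε hlt => ?_⟩
    exact not_lt.1 (WellFounded.not_lt_min (wellFounded_lt (α := W)) {ε | ε ∈ E ∧ δ < ε} ⟨hε, hlt⟩)
  obtain ⟨δp, hδpE, hδp1, hδp2⟩ := hnext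
  -- the class of `a`
  let I := p.filter fun x => agree δ a x.1
  have hx0I : x0 ∈ I := Finset.mem_filter.2 ⟨hx0, hax0⟩
  have hIx0 : ∀ x ∈ I, agree δ x.2 x0.2 := by
    intro x hx
    obtain ⟨hxp, hxa⟩ := Finset.mem_filter.1 hx
    exact ((hR x hxp x0 hx0).1 δ hδE).1 (hxa.symm.trans hax0)
  -- `R` from separation
  have hRext : ∀ b ∈ B, agree δ x0.2 b → (∀ x ∈ I, x.1 < a → x.2 < b) →
      (∀ x ∈ I, a < x.1 → b < x.2) → (∀ x ∈ I, ∀ ε ∈ E, δ < ε → ¬ agree ε x.2 b) →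
      ∀ x ∈ p, R E x (a, b) := by
    intro b _ h1 h2 h3 h4 x hx
    by_cases hxI : agree δ a x.1
    · have hxI' : x ∈ I := Finset.mem_filter.2 ⟨hx, hxI⟩
      refine ⟨fun ε hε => ?_, ⟨fun h => h2 x hxI' h, fun h => ?_⟩,
        ⟨fun h => h3 x hxI' h, fun h => ?_⟩⟩
      · rcases le_or_gt ε δ with hle | hlt
        · exact ⟨fun _ => ((hIx0 x hxI').trans h1).mono hle, fun _ => (hxI.symm).mono hle⟩
        · exact ⟨fun h => absurd h.symm (hnot x hx ε hε hlt),
            fun h => absurd h (h4 x hxI' ε hε hlt)⟩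
      · rcases lt_or_gt_of_ne (hmem x hx) with h5 | h5
        · exact h5
        · exact absurd h (not_lt.2 (h3 x hxI' h5).le)
      · rcases lt_or_gt_of_ne (hmem x hx) with h5 | h5
        · exact absurd h (not_lt.2 (h2 x hxI' h5).le)
        · exact h5
    · have hxx0 := hR x hx x0 hx0
      have h5 : ¬ agree δ x0.1 x.1 := fun h => hxI (hax0.trans h)
      have h6 : ¬ agree δ x0.2 x.2 := fun h => h5 ((hxx0.1 δ hδE).2 h.symm).symm
      refine ⟨fun ε hε => ?_, ?_, ?_⟩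
      · rcases le_or_gt ε δ with hle | hlt
        · constructor
          · intro h
            have h7 : agree ε x.1 x0.1 := h.trans (hax0.mono hle)
            exact ((hxx0.1 ε hε).1 h7).trans (h1.mono hle)
          · intro h
            have h7 : agree ε x.2 x0.2 := agree.trans h (h1.symm.mono hle)
            exact ((hxx0.1 ε hε).2 h7).trans (hax0.symm.mono hle)
        · constructor
          · intro h
            exact absurd (h.symm.mono hlt.le) hxI
          · intro h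
            have h7 : agree δ x0.2 x.2 := h1.trans (agree.symm (agree.mono h hlt.le))
            exact absurd h7 h6
      · calc x.1 < a ↔ x.1 < x0.1 := (lt_congr_right hax0 hxI)
          _ ↔ x.2 < x0.2 := hxx0.2.1
          _ ↔ x.2 < b := lt_congr_right h1 h6
      · calc a < x.1 ↔ x0.1 < x.1 := (lt_congr_left hax0 hxI)
          _ ↔ x0.2 < x.2 := hxx0.2.2
          _ ↔ b < x.2 := lt_congr_left h1 h6
  -- two points in the gap
  have hgap : ∃ b1 ∈ B, ∃ b2 ∈ B, b1 < b2 ∧ agree δ x0.2 b1 ∧ agree δ x0.2 b2 ∧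
      top b1 < δp ∧ top b2 < δp ∧ (∀ x ∈ I, x.1 < a → x.2 < b1) ∧ (∀ x ∈ I, a < x.1 → b2 < x.2) := by
    -- left and right neighbours
    let IL := I.filter fun x => x.1 < a
    let IR := I.filter fun x => a < x.1
    -- a first point b1
    have hstep : ∀ bl : F, bl ∈ B → agree δ x0.2 bl → δ ≤ top bl →
        (∀ x ∈ IR, bl < x.2 ∧ ¬ agree δp bl x.2) →
        ∃ b1 ∈ B, bl < b1 ∧ agree δ x0.2 b1 ∧ top b1 < δp ∧ ∀ x ∈ IR, b1 < x.2 := by
      intro bl hbl hag hδbl hall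
      rcases IR.eq_empty_or_nonempty with hempty | hne
      · obtain ⟨c, hc, u1, u2, u3⟩ := hB.up bl hbl δ hδE hδbl
        refine ⟨c, hc, u2, hag.trans u1, u3 δp hδpE hδp1, ?_⟩
        intro x hx
        rw [hempty] at hx
        exact absurd hx (Finset.notMem_empty x)
      · obtain ⟨y, hy, hymin⟩ := Finset.exists_min_image IR (fun x => x.2) hne
        obtain ⟨hyl, hyna⟩ := hall y hy
        have hyI : y ∈ I := (Finset.mem_filter.1 hy).1
        have hyp : y ∈ p := (Finset.mem_filter.1 hyI).1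
        obtain ⟨c, hc, u1, u2, u3⟩ := hB.btw bl hbl y.2 (hp y hyp).2.1 hyl δp hδpE hyna
        refine ⟨c, hc, u1, ?_, u3, fun x hx => lt_of_lt_of_le u2 (hymin x hx)⟩
        have : agree δ bl y.2 := hag.symm.trans (hIx0 y hyI).symm
        exact hag.trans (agree_of_between this u1 u2)
    have hb1 : ∃ b1 ∈ B, agree δ x0.2 b1 ∧ top b1 < δp ∧ (∀ x ∈ IL, x.2 < b1) ∧
        ∀ x ∈ IR, b1 < x.2 := by
      rcases IL.eq_empty_or_nonempty with hempty | hne
      · -- no left neighbour: IR is nonempty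
        have hx0R : x0 ∈ IR := by
          rcases lt_or_gt_of_ne (hmem x0 hx0) with h5 | h5
          · have : x0 ∈ IL := Finset.mem_filter.2 ⟨hx0I, h5⟩
            rw [hempty] at this
            exact absurd this (Finset.notMem_empty _)
          · exact Finset.mem_filter.2 ⟨hx0I, h5⟩
        obtain ⟨y, hy, hymin⟩ := Finset.exists_min_image IR (fun x => x.2) ⟨x0, hx0R⟩
        have hyI : y ∈ I := (Finset.mem_filter.1 hy).1
        have hyp : y ∈ p := (Finset.mem_filter.1 hyI).1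
        have hδy : δ ≤ top y.2 := le_top_of_lim hE (hB.sub hx0B) (hB.sub (hp y hyp).2.1) hδE
          (hIx0 y hyI).symm hδx0'
        obtain ⟨c, hc, u1, u2, u3⟩ := hB.dn y.2 (hp y hyp).2.1 δ hδE hδy
        refine ⟨c, hc, (hIx0 y hyI).symm.trans u1, u3 δp hδpE hδp1, ?_,
          fun x hx => lt_of_lt_of_le u2 (hymin x hx)⟩
        intro x hx
        rw [hempty] at hx
        exact absurd hx (Finset.notMem_empty x)
      · obtain ⟨y, hy, hymax⟩ := Finset.exists_max_image IL (fun x => x.2) hne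
        obtain ⟨hyI, hya⟩ := Finset.mem_filter.1 hy
        have hyp : y ∈ p := (Finset.mem_filter.1 hyI).1
        have hδy : δ ≤ top y.2 := le_top_of_lim hE (hB.sub hx0B) (hB.sub (hp y hyp).2.1) hδE
          (hIx0 y hyI).symm hδx0'
        obtain ⟨c, hc, u1, u2, u3, u4⟩ := hstep y.2 (hp y hyp).2.1 (hIx0 y hyI).symm hδy (by
          intro x hx
          obtain ⟨hxI, hxa⟩ := Finset.mem_filter.1 hx
          have hxp : x ∈ p := (Finset.mem_filter.1 hxI).1
          have hyx := hR y hyp x hxp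
          refine ⟨hyx.2.1.1 (hya.trans hxa), fun hag => ?_⟩
          have h7 : agree δp y.1 x.1 := (hyx.1 δp hδpE).2 hag
          have h8 : agree δp y.1 a := agree_of_between h7 hya hxa
          exact hnot y hyp δp hδpE hδp1 h8.symm)
        exact ⟨c, hc, u2, u3, fun x hx => lt_of_le_of_lt (hymax x hx) u1, u4⟩
    obtain ⟨b1, hb1B, v1, v2, v3, v4⟩ := hb1
    have hδb1 : δ ≤ top b1 := le_top_of_lim hE (hB.sub hx0B) (hB.sub hb1B) hδE v1 hδx0'
    obtain ⟨b2, hb2B, w1, w2, w3, w4⟩ := hstep b1 hb1B v1 hδb1 (by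
      intro x hx
      refine ⟨v4 x hx, fun hag => ?_⟩
      have hxp : x ∈ p := (Finset.mem_filter.1 (Finset.mem_filter.1 hx).1).1
      have := le_top_of_ne hE (hB.sub hb1B) (hB.sub (hp x hxp).2.1) hδpE hag (v4 x hx).ne
      exact absurd this (not_le.2 v2))
    refine ⟨b1, hb1B, b2, hb2B, w1, v1, w2, v2, w3, ?_, ?_⟩
    · intro x hx hxa
      exact v3 x (Finset.mem_filter.2 ⟨hx, hxa⟩)
    · intro x hx hxa
      exact w4 x (Finset.mem_filter.2 ⟨hx, hxa⟩)
  obtain ⟨b1, hb1, b2, hb2, h12, hag1, hag2, ht1, ht2, hL, hRr⟩ := hgap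
  have hδb1 : δ ≤ top b1 := le_top_of_lim hE (hB.sub hx0B) (hB.sub hb1) hδE hag1 hδx0'
  -- elements in `[b1, b2]` are separated from the others
  have hsep : ∀ b ∈ B, b1 ≤ b → b ≤ b2 → ∀ x ∈ I, ∀ ε ∈ E, δ < ε → ¬ agree ε x.2 b := by
    intro b hb hb1b hbb2 x hx ε hε hlt hag
    have hxp : x ∈ p := (Finset.mem_filter.1 hx).1
    have hδpε : δp ≤ ε := hδp2 ε hε hlt
    rcases lt_or_gt_of_ne (hmem x hxp) with h5 | h5
    · have h6 := hL x hx h5
      have h7 : agree ε x.2 b1 := by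
        rcases eq_or_lt_of_le hb1b with h8 | h8
        · rw [h8]; exact hag
        · exact agree_of_between hag h6 h8
      have h8 := le_top_of_ne hE (hB.sub hb1) (hB.sub (hp x hxp).2.1) hε h7.symm h6.ne'
      exact absurd (hδpε.trans h8) (not_le.2 ht1)
    · have h6 := hRr x hx h5
      have h7 : agree ε b2 x.2 := by
        rcases eq_or_lt_of_le hbb2 with h8 | h8
        · rw [← h8]; exact hag.symm
        · have h9 : agree ε b b2 := agree_of_between (a := b) (b := x.2) hag.symm h8 h6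
          exact h9.symm.trans hag.symm
      have h8 := le_top_of_ne hE (hB.sub hb2) (hB.sub (hp x hxp).2.1) hε h7 h6.ne
      exact absurd (hδpε.trans h8) (not_le.2 ht2)
  rcases eq_or_lt_of_le hδlam with hδl | hδl
  · -- same level: use b1
    refine ⟨b1, hb1, hSL b1 hb1 (hδl ▸ hδb1) ?_, ?_⟩
    · intro ε hε hlt
      exact lt_of_lt_of_le ht1 (hδp2 ε hε (hδl ▸ hlt))
    · refine hRext b1 hb1 hag1 hL ?_ (hsep b1 hb1 le_rfl h12.le)
      intro x hx hxa
      exact h12.trans (hRr x hx hxa)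
  · -- higher level
    have hδpl : δp ≤ lam := hδp2 lam hlamE hδl
    obtain ⟨b3, hb3, h13, h32, h3t⟩ := hB.tall b1 hb1 b2 hb2 h12 lam
    obtain ⟨b, hb, hagb, hb3b, hbt⟩ := hB.up b3 hb3 lam hlamE h3t
    have hn1 : ¬ agree lam b3 b1 := by
      intro hag
      have := le_top_of_ne hE (hB.sub hb1) (hB.sub hb3) hlamE hag.symm h13.ne
      exact absurd (hδpl.trans this) (not_le.2 ht1)
    have hn2 : ¬ agree lam b3 b2 := by
      intro hag
      have := le_top_of_ne hE (hB.sub hb2) (hB.sub hb3) hlamE hag.symm h32.ne'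
      exact absurd (hδpl.trans this) (not_le.2 ht2)
    have h1b : b1 < b := (lt_congr_right hagb hn1).1 h13
    have hb2' : b < b2 := (lt_congr_left hagb hn2).1 h32
    refine ⟨b, hb, hSL b hb (le_top_of_lim hE (hB.sub hb3) (hB.sub hb) hlamE hagb h3t) hbt, ?_⟩
    refine hRext b hb ?_ ?_ ?_ (hsep b hb h1b.le hb2'.le)
    · have : agree δ b1 b := agree_of_between (hag1.symm.trans hag2) h1b hb2'
      exact hag1.trans this
    · intro x hx hxa
      exact (hL x hx hxa).trans h1b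
    · intro x hx hxa
      exact hb2'.trans (hRr x hx hxa)

end Pool.Agent.H78.SS
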