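import Pool.Agent.H78.SS.Aron

set_option autoImplicit false

/-!
A strongly surjective uncountable set of reals under Baumgartner's axiom.
-/

namespace Pool.Agent.H78.SS

open Set Cardinal

lemma exists_aleph1Dense : ∃ X : Set ℝ, Aleph1Dense X := by
  have h : ∀ r : ℚ × ℚ, ∃ S : Set ℝ, #S ≤ ℵ₁ ∧ (r.1 < r.2 → S ⊆ Ioo (r.1 : ℝ) r.2 ∧ #S = ℵ₁) := by
    intro r
    by_cases hr : r.1 < r.2
    · have h1 : ℵ₁ ≤ #(Ioo (r.1 : ℝ) r.2) := by
        rw [Cardinal.mk_Ioo_real (by exact_mod_cast hr)]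
        exact Cardinal.aleph_one_le_continuum
      obtain ⟨S, hS1, hS2⟩ := Cardinal.le_mk_iff_exists_subset.1 h1
      exact ⟨S, hS2.le, fun _ => ⟨hS1, hS2⟩⟩
    · exact ⟨∅, by simp, fun h => absurd h hr⟩
  choose S hS1 hS2 using h
  refine ⟨⋃ r, S r, fun a b hab => le_antisymm ?_ ?_⟩
  · calc #((⋃ r, S r) ∩ Ioo a b : Set ℝ) ≤ #(⋃ r, S r : Set ℝ) :=
        mk_le_mk_of_subset inter_subset_left
      _ ≤ #(ℚ × ℚ) * ⨆ r, #(S r) := mk_iUnion_le _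
      _ ≤ ℵ₀ * ℵ₁ := mul_le_mul' mk_le_aleph0 (ciSup_le' hS1)
      _ = ℵ₁ := by
        rw [Cardinal.mul_eq_right (aleph0_le_aleph 1) (aleph0_le_aleph 1) aleph0_ne_zero]
  · obtain ⟨p, hp1, hp2⟩ := exists_rat_btwn hab
    obtain ⟨q, hq1, hq2⟩ := exists_rat_btwn hp2
    have hpq : ((p, q) : ℚ × ℚ).1 < ((p, q) : ℚ × ℚ).2 := by exact_mod_cast hq1
    obtain ⟨h1, h2⟩ := hS2 (p, q) hpq
    rw [← h2]
    apply mk_le_mk_of_subset
    intro x hx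
    have h3 := h1 hx
    exact ⟨mem_iUnion.2 ⟨(p, q), hx⟩, hp1.trans h3.1, h3.2.trans hq2⟩

lemma Aleph1Dense.mk_le {X : Set ℝ} (hX : Aleph1Dense X) : #X ≤ ℵ₁ := by
  have h1 : X ⊆ ⋃ n : ℕ, X ∩ Ioo (-(n : ℝ) - 1) (n + 1) := by
    intro x hx
    obtain ⟨n, hn⟩ := exists_nat_gt |x|
    refine mem_iUnion.2 ⟨n, hx, ?_, ?_⟩
    · have := neg_abs_le x; linarith
    · have := le_abs_self x; linarith
  calc #X ≤ #(⋃ n : ℕ, X ∩ Ioo (-(n : ℝ) - 1) (n + 1) : Set ℝ) := mk_le_mk_of_subset h1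
    _ ≤ #ℕ * ⨆ n : ℕ, #(X ∩ Ioo (-(n : ℝ) - 1) (n + 1) : Set ℝ) := mk_iUnion_le _
    _ ≤ ℵ₀ * ℵ₁ := by
        refine mul_le_mul' mk_le_aleph0 (ciSup_le' fun n => ?_)
        have h2 : (0 : ℝ) ≤ n := Nat.cast_nonneg n
        exact (hX _ _ (by linarith)).le
    _ = ℵ₁ := by
        rw [Cardinal.mul_eq_right (aleph0_le_aleph 1) (aleph0_le_aleph 1) aleph0_ne_zero]

lemma Aleph1Dense.not_countable {X : Set ℝ} (hX : Aleph1Dense X) : ¬ X.Countable := by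
  intro h
  have h1 := hX 0 1 zero_lt_one
  have h2 : #(X ∩ Ioo 0 1 : Set ℝ) ≤ ℵ₀ :=
    Cardinal.le_aleph0_iff_set_countable.2 (h.mono inter_subset_left)
  rw [h1] at h2
  exact absurd h2 (not_le.2 aleph0_lt_aleph_one)

/-- a countable order dense subset containing the end points -/
lemma exists_order_dense' (K : Set ℝ) (hK : K.Nonempty) : ∃ D ⊆ K, D.Nonempty ∧ D.Countable ∧
    (∀ x ∈ K, ∀ y ∈ K, x < y → ∃ d ∈ D, x ≤ d ∧ d ≤ y) ∧
    (∀ x ∈ K, x ∉ D → (∃ d ∈ D, d < x) ∧ ∃ d ∈ D, x < d) := by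
  obtain ⟨D, hD1, hD2, hD3⟩ := exists_order_dense K
  obtain ⟨k0, hk0⟩ := hK
  refine ⟨D ∪ {k0} ∪ ({m | m ∈ K ∧ ∀ z ∈ K, m ≤ z} ∪ {m | m ∈ K ∧ ∀ z ∈ K, z ≤ m}),
    ?_, ⟨k0, Or.inl (Or.inr rfl)⟩, ?_, ?_, ?_⟩
  · rintro x ((hx | rfl) | (hx | hx))
    · exact hD1 hx
    · exact hk0
    · exact hx.1
    · exact hx.1
  · refine (hD2.union (countable_singleton _)).union (Set.Countable.union ?_ ?_)
    · refine Set.Subsingleton.countable ?_
      rintro a ⟨ha1, ha2⟩ b ⟨hb1, hb2⟩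
      exact le_antisymm (ha2 b hb1) (hb2 a ha1)
    · refine Set.Subsingleton.countable ?_
      rintro a ⟨ha1, ha2⟩ b ⟨hb1, hb2⟩
      exact le_antisymm (hb2 a ha1) (ha2 b hb1)
  · intro x hx y hy hxy
    obtain ⟨d, hd, h⟩ := hD3 x hx y hy hxy
    exact ⟨d, Or.inl (Or.inl hd), h⟩
  · intro x hx hxD
    constructor
    · have h1 : ∃ z ∈ K, z < x := by
        by_contra hc
        push Not at hc
        exact hxD (Or.inr (Or.inl ⟨hx, hc⟩))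
      obtain ⟨z, hz, hzx⟩ := h1
      obtain ⟨d, hd, h2, h3⟩ := hD3 z hz x hx hzx
      refine ⟨d, Or.inl (Or.inl hd), lt_of_le_of_ne h3 ?_⟩
      rintro rfl
      exact hxD (Or.inl (Or.inl hd))
    · have h1 : ∃ z ∈ K, x < z := by
        by_contra hc
        push Not at hc
        exact hxD (Or.inr (Or.inr ⟨hx, hc⟩))
      obtain ⟨z, hz, hzx⟩ := h1
      obtain ⟨d, hd, h2, h3⟩ := hD3 x hx z hz hzx
      refine ⟨d, Or.inl (Or.inl hd), lt_of_le_of_ne h2 ?_⟩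
      rintro rfl
      exact hxD (Or.inl (Or.inl hd))

/-- Every nonempty set of reals of size at most `ℵ₁` is a monotone image of an `ℵ₁`-dense set. -/
lemma exists_dense_onto {X : Set ℝ} (hX : Aleph1Dense X) (K : Set ℝ) (hK : K.Nonempty)
    (hKc : #K ≤ ℵ₁) : ∃ Y : Set ℝ, Aleph1Dense Y ∧ ∃ f : Y → K, Monotone f ∧
      Function.Surjective f := by
  classical
  obtain ⟨D, hDK, hDne, hDc, hD1, hD2⟩ := exists_order_dense' K hK
  have : Countable D := hDc.to_subtype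
  have : Nonempty D := hDne.to_subtype
  have hcnt : Countable (D ×ₗ ℚ) := inferInstanceAs (Countable (D × ℚ))
  have hnonempty : Nonempty (D ×ₗ ℚ) := inferInstanceAs (Nonempty (D × ℚ))
  obtain ⟨ψ⟩ := Order.iso_of_countable_dense (D ×ₗ ℚ) ℚ
  let r : D → ℚ → ℝ := fun d q => ((ψ (toLex (d, q)) : ℚ) : ℝ)
  have hr1 : ∀ d d' q q', d < d' → r d q < r d' q' := by
    intro d d' q q' h
    have : toLex (d, q) < toLex (d', q') := by
      rw [Prod.Lex.toLex_lt_toLex]; exact Or.inl h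
    exact Rat.cast_lt.2 (ψ.strictMono this)
  have hr2 : ∀ d q q', q < q' → r d q < r d q' := by
    intro d q q' h
    have : toLex (d, q) < toLex (d, q') := by
      rw [Prod.Lex.toLex_lt_toLex]; exact Or.inr ⟨rfl, h⟩
    exact Rat.cast_lt.2 (ψ.strictMono this)
  have hr3 : ∀ x : ℚ, ∃ d q, r d q = x := by
    intro x
    refine ⟨(ofLex (ψ.symm x)).1, (ofLex (ψ.symm x)).2, ?_⟩
    show ((ψ (toLex ((ofLex (ψ.symm x)).1, (ofLex (ψ.symm x)).2)) : ℚ) : ℝ) = x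
    have : toLex ((ofLex (ψ.symm x)).1, (ofLex (ψ.symm x)).2) = ψ.symm x := rfl
    rw [this, ψ.apply_symm_apply]
  -- the relation
  let P : ℝ → ℝ → Prop := fun k y =>
    (∀ (d : D) (q : ℚ), (d.1 < k → r d q < y) ∧ (k < d.1 → y < r d q)) ∧
    (∀ h : k ∈ D, (∃ q q', r ⟨k, h⟩ q < y ∧ y < r ⟨k, h⟩ q') ∧ y ∈ X)
  have hPmono : ∀ k ∈ K, ∀ k' ∈ K, k' < k → ∀ y y', P k y → P k' y' → y' < y := by
    intro k hk k' hk' hlt y y' hy hy'
    obtain ⟨d, hd, h1, h2⟩ := hD1 k' hk' k hk hlt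
    rcases eq_or_lt_of_le h1 with h3 | h3
    · -- k' = d
      have hk'D : k' ∈ D := h3 ▸ hd
      obtain ⟨⟨q, q', _, hq'⟩, _⟩ := hy'.2 hk'D
      exact hq'.trans ((hy.1 ⟨k', hk'D⟩ q').1 hlt)
    · rcases eq_or_lt_of_le h2 with h4 | h4
      · have hkD : k ∈ D := h4 ▸ hd
        obtain ⟨⟨q, q', hq, _⟩, _⟩ := hy.2 hkD
        exact ((hy'.1 ⟨k, hkD⟩ q).2 hlt).trans hq
      · exact ((hy'.1 ⟨d, hd⟩ 0).2 h3).trans ((hy.1 ⟨d, hd⟩ 0).1 h4)
  have hPuniq : ∀ k, k ∉ D → ∀ y y', P k y → P k y' → ¬ y < y' := by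
    intro k hk y y' hy hy' hlt
    obtain ⟨x, hx1, hx2⟩ := exists_rat_btwn hlt
    obtain ⟨d, q, hdq⟩ := hr3 x
    rcases lt_trichotomy d.1 k with h | h | h
    · have := (hy.1 d q).1 h
      rw [hdq] at this
      exact absurd hx1 (not_lt.2 this.le)
    · exact hk (h ▸ d.2)
    · have := (hy'.1 d q).2 h
      rw [hdq] at this
      exact absurd hx2 (not_lt.2 this.le)
  have hPex : ∀ k ∈ K, ∃ y, P k y := by
    intro k hk
    by_cases hkD : k ∈ D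
    · -- a point of X in the interval of k
      have hlt : r ⟨k, hkD⟩ 0 < r ⟨k, hkD⟩ 1 := hr2 _ _ _ zero_lt_one
      have hne : (X ∩ Ioo (r ⟨k, hkD⟩ 0) (r ⟨k, hkD⟩ 1)).Nonempty := by
        rw [← Set.nonempty_coe_sort, ← Cardinal.mk_ne_zero_iff, hX _ _ hlt]
        exact (aleph_pos 1).ne'
      obtain ⟨y, hyX, hy1, hy2⟩ := hne
      refine ⟨y, fun d q => ⟨fun h => ?_, fun h => ?_⟩, fun _ => ⟨⟨0, 1, hy1, hy2⟩, hyX⟩⟩
      · exact (hr1 d ⟨k, hkD⟩ q 0 h).trans hy1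
      · exact hy2.trans (hr1 ⟨k, hkD⟩ d 1 q h)
    · -- the cut
      obtain ⟨⟨d1, hd1, hd1k⟩, ⟨d2, hd2, hkd2⟩⟩ := hD2 k hk hkD
      let S : Set ℝ := {y | ∃ (d : D) (q : ℚ), d.1 < k ∧ y = r d q}
      have hSne : S.Nonempty := ⟨r ⟨d1, hd1⟩ 0, ⟨d1, hd1⟩, 0, hd1k, rfl⟩
      have hSub : ∀ (d : D) (q : ℚ), k < d.1 → ∀ y ∈ S, y ≤ r d q := by
        rintro d q hd y ⟨d', q', hd', rfl⟩
        exact (hr1 d' d q' q (show d'.1 < d.1 from hd'.trans hd)).le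
      have hbdd : BddAbove S := ⟨r ⟨d2, hd2⟩ 0, hSub ⟨d2, hd2⟩ 0 hkd2⟩
      refine ⟨sSup S, fun d q => ⟨fun h => ?_, fun h => ?_⟩, fun h => absurd h hkD⟩
      · exact lt_of_lt_of_le (hr2 d q (q + 1) (by linarith))
          (le_csSup hbdd ⟨d, q + 1, h, rfl⟩)
      · exact lt_of_le_of_lt (csSup_le hSne (hSub d (q - 1) h)) (hr2 d (q - 1) q (by linarith))
  let Y : Set ℝ := {y | ∃ k ∈ K, P k y}
  have hYle : #Y ≤ ℵ₁ := by
    let Y1 : Set ℝ := {y | ∃ k ∈ K, k ∉ D ∧ P k y}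
    have h1 : Y ⊆ X ∪ Y1 := by
      rintro y ⟨k, hk, hy⟩
      by_cases hkD : k ∈ D
      · exact Or.inl (hy.2 hkD).2
      · exact Or.inr ⟨k, hk, hkD, hy⟩
    have h2 : #Y1 ≤ #K := by
      have h3 : ∀ y : Y1, ∃ k : K, k.1 ∉ D ∧ P k.1 y.1 := by
        rintro ⟨y, k, hk, hkD, hy⟩
        exact ⟨⟨k, hk⟩, hkD, hy⟩
      choose g hg1 hg2 using h3
      refine Cardinal.mk_le_of_injective (f := g) ?_
      intro y y' hyy
      apply Subtype.ext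
      by_contra hne
      rcases lt_or_gt_of_ne hne with h | h
      · exact hPuniq _ (hg1 y) _ _ (hg2 y) (hyy ▸ hg2 y') h
      · exact hPuniq _ (hg1 y) _ _ (hyy ▸ hg2 y') (hg2 y) h
    calc #Y ≤ #(X ∪ Y1 : Set ℝ) := mk_le_mk_of_subset h1
      _ ≤ #X + #Y1 := mk_union_le _ _
      _ ≤ ℵ₁ + ℵ₁ := add_le_add hX.mk_le (h2.trans hKc)
      _ = ℵ₁ := Cardinal.add_eq_self (aleph0_le_aleph 1)
  refine ⟨Y, ?_, ?_⟩
  · intro a b hab
    apply le_antisymm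
    · exact (mk_le_mk_of_subset inter_subset_left).trans hYle
    · obtain ⟨x, hx1, hx2⟩ := exists_rat_btwn hab
      obtain ⟨d, q, hdq⟩ := hr3 x
      have h1 : max a (r d (q - 1)) < min b (r d (q + 1)) := by
        have h2 : r d (q - 1) < x := by rw [← hdq]; exact hr2 d _ _ (by linarith)
        have h3 : (x : ℝ) < r d (q + 1) := by rw [← hdq]; exact hr2 d _ _ (by linarith)
        exact (max_lt hx1 h2).trans (lt_min hx2 h3)
      rw [← hX _ _ h1]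
      apply mk_le_mk_of_subset
      rintro y ⟨hyX, hy1, hy2⟩
      have hya := lt_of_le_of_lt (le_max_left _ _) hy1
      have hyr := lt_of_le_of_lt (le_max_right _ _) hy1
      have hyb := lt_of_lt_of_le hy2 (min_le_left _ _)
      have hyr' := lt_of_lt_of_le hy2 (min_le_right _ _)
      refine ⟨⟨d.1, hDK d.2, fun d' q' => ⟨fun h => ?_, fun h => ?_⟩,
        fun _ => ⟨⟨q - 1, q + 1, hyr, hyr'⟩, hyX⟩⟩, hya, hyb⟩
      · exact (hr1 d' d q' (q - 1) h).trans hyr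
      · exact hyr'.trans (hr1 d d' (q + 1) q' h)
  · have h1 : ∀ y : Y, ∃ k : K, P k.1 y.1 := by
      rintro ⟨y, k, hk, hy⟩
      exact ⟨⟨k, hk⟩, hy⟩
    choose f hf using h1
    refine ⟨f, ?_, ?_⟩
    · intro y y' hyy
      by_contra hc
      rw [not_le] at hc
      exact absurd hyy (not_le.2 (hPmono _ (f y).2 _ (f y').2 hc _ _ (hf y) (hf y')))
    · intro k
      obtain ⟨y, hy⟩ := hPex k.1 k.2
      let y' : Y := ⟨y, k.1, k.2, hy⟩
      refine ⟨y', ?_⟩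
      rcases lt_trichotomy (f y') k with h | h | h
      · exact absurd (hPmono _ k.2 _ (f y').2 h _ _ hy (hf y')) (lt_irrefl _)
      · exact h
      · exact absurd (hPmono _ (f y').2 _ k.2 h _ _ (hf y') hy) (lt_irrefl _)

/-- Under Baumgartner's axiom `ℵ₁`-dense sets of reals are strongly surjective. -/
theorem real_ss (hBA : BaumgartnerAxiom) {X : Set ℝ} (hX : Aleph1Dense X) :
    StronglySurjective X := by
  intro K hK
  have hKc : #(Subtype.val '' K : Set ℝ) ≤ ℵ₁ :=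
    (mk_le_mk_of_subset (by rintro _ ⟨x, _, rfl⟩; exact x.2)).trans hX.mk_le
  obtain ⟨Y, hY, f, hf1, hf2⟩ := exists_dense_onto hX (Subtype.val '' K) (hK.image _) hKc
  obtain ⟨φ⟩ := hBA X Y hX hY
  have hmem : ∀ y : (Subtype.val '' K : Set ℝ), ∃ x : K, x.1.1 = y.1 := by
    rintro ⟨_, x, hx, rfl⟩
    exact ⟨⟨x, hx⟩, rfl⟩
  choose ρ hρ using hmem
  refine ⟨fun x => ρ (f (φ x)), ?_, ?_⟩
  · intro x y hxy
    have h1 := hf1 (φ.monotone hxy)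
    show (ρ (f (φ x))).1.1 ≤ (ρ (f (φ y))).1.1
    rw [hρ, hρ]
    exact h1
  · intro k
    obtain ⟨s, hs⟩ := hf2 ⟨k.1.1, k.1, k.2, rfl⟩
    refine ⟨φ.symm s, ?_⟩
    show ρ (f (φ (φ.symm s))) = k
    rw [φ.apply_symm_apply, hs]
    apply Subtype.ext
    apply Subtype.ext
    exact hρ _

end Pool.Agent.H78.SS
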