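import Mathlib

set_option autoImplicit false

/-!
The full coherent Aronszajn tree, lexicographically ordered.
-/

namespace Pool.Agent.H78.SS

open Set Cardinal

/-- The first uncountable ordinal, as a well-ordered type. -/
abbrev W : Type := (Ordinal.omega 1).ToType

lemma mk_W : #W = ℵ₁ := by simp

lemma countable_Iio (w : W) : (Iio w).Countable := by
  rw [← Cardinal.le_aleph0_iff_set_countable, ← Order.lt_succ_iff, Cardinal.succ_aleph0]
  have h := mk_Iio_lt w (by simp)
  rwa [mk_W] at h

lemma countable_Iic (w : W) : (Iic w).Countable := by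
  have : Iic w = insert w (Iio w) := by
    ext x; simp [le_iff_eq_or_lt]
  rw [this]
  exact (countable_Iio w).insert w

lemma not_countable_W : ¬ (univ : Set W).Countable := by
  rw [← Cardinal.le_aleph0_iff_set_countable, mk_univ, mk_W, not_le]
  exact aleph0_lt_aleph_one

instance : Nonempty W := by
  by_contra h
  apply not_countable_W
  rw [not_nonempty_iff] at h
  exact countable_univ

/-- Countable sets are bounded. -/
lemma exists_gt {s : Set W} (hs : s.Countable) : ∃ w, ∀ v ∈ s, v < w := by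
  by_contra h
  push Not at h
  apply not_countable_W
  have : (univ : Set W) ⊆ ⋃ v ∈ s, Iic v := by
    intro w _
    obtain ⟨v, hv, hw⟩ := h w
    exact mem_biUnion hv hw
  exact (hs.biUnion fun v _ => countable_Iic v).mono this

lemma exists_gt' (v : W) : ∃ w, v < w := by
  obtain ⟨w, hw⟩ := exists_gt (countable_singleton v)
  exact ⟨w, hw v rfl⟩

/-- Uncountable sets are unbounded. -/
lemma exists_mem_gt {s : Set W} (hs : ¬ s.Countable) (w : W) : ∃ v ∈ s, w < v := by
  by_contra h
  push Not at h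
  exact hs ((countable_Iic w).mono h)

/-! ### A coherent sequence -/

lemma exists_cofinal (α : W) (h : (Iio α).Nonempty) :
    ∃ c : ℕ → W, Monotone c ∧ (∀ n, c n < α) ∧ ∀ ξ < α, ∃ n, ξ ≤ c n := by
  obtain ⟨x, hx⟩ := (countable_Iio α).exists_eq_range h
  have hx1 : ∀ n, x n < α := fun n => by
    have : x n ∈ Iio α := hx ▸ mem_range_self n
    exact this
  refine ⟨partialSups x, (partialSups x).monotone, ?_, ?_⟩
  · intro n
    rw [partialSups_apply, Finset.sup'_lt_iff]
    exact fun i _ => hx1 i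
  · intro ξ hξ
    have : ξ ∈ range x := hx ▸ hξ
    obtain ⟨n, rfl⟩ := this
    exact ⟨n, le_partialSups x n⟩

/-- a chosen cofinal sequence -/
noncomputable def cf (α : W) (h : (Iio α).Nonempty) : ℕ → W := (exists_cofinal α h).choose

lemma cf_mono (α : W) (h : (Iio α).Nonempty) : Monotone (cf α h) :=
  (exists_cofinal α h).choose_spec.1

lemma cf_lt (α : W) (h : (Iio α).Nonempty) (n : ℕ) : cf α h n < α :=
  (exists_cofinal α h).choose_spec.2.1 n

lemma cf_cof (α : W) (h : (Iio α).Nonempty) (ξ : W) (hξ : ξ < α) : ∃ n, ξ ≤ cf α h n :=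
  (exists_cofinal α h).choose_spec.2.2 ξ hξ

open Classical in
/-- One step of the recursion. -/
noncomputable def estep (α : W) (F : ∀ β : W, β < α → W → ℕ) (ξ : W) : ℕ :=
  if h : ξ < α then
    let hne : (Iio α).Nonempty := ⟨ξ, h⟩
    let n := Nat.find (cf_cof α hne ξ h)
    max (if ξ < cf α hne n then F (cf α hne n) (cf_lt α hne n) ξ else 0) n
  else 0

/-- A coherent sequence of finite-to-one functions. -/
noncomputable def e : W → W → ℕ :=
  WellFounded.fix (wellFounded_lt (α := W)) estep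

lemma e_eq (α : W) : e α = estep α (fun β _ => e β) :=
  WellFounded.fix_eq _ _ _

/-- the properties of `e` at `α` -/
def EProp (α : W) : Prop :=
  (∀ m, {ξ | ξ < α ∧ e α ξ ≤ m}.Finite) ∧ ∀ β ≤ α, {ξ | ξ < β ∧ e β ξ ≠ e α ξ}.Finite

open Classical in
lemma eprop (α : W) : EProp α := by
  induction α using WellFoundedLT.induction with
  | ind α ih =>
    by_cases hne : (Iio α).Nonempty
    swap
    · have hem : ∀ ξ, ¬ ξ < α := fun ξ h => hne ⟨ξ, h⟩
      refine ⟨fun m => ?_, fun β hβ => ?_⟩
      · convert Set.finite_empty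
        ext ξ; simp [hem ξ]
      · convert Set.finite_empty
        ext ξ
        simp only [mem_ofPred_eq, mem_empty_iff_false, iff_false, not_and]
        intro h
        exact absurd (lt_of_lt_of_le h hβ) (hem ξ)
    set c := cf α hne with hc
    -- value of e
    have hval : ∀ ξ (h : ξ < α), e α ξ =
        max (if ξ < c (Nat.find (cf_cof α hne ξ h)) then e (c (Nat.find (cf_cof α hne ξ h))) ξ
          else 0) (Nat.find (cf_cof α hne ξ h)) := by
      intro ξ h
      rw [e_eq, estep, dif_pos h]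
    -- agreement with e (c n) below c n
    have hagree : ∀ n, {ξ | ξ < c n ∧ e (c n) ξ ≠ e α ξ}.Finite := by
      intro n
      induction n with
      | zero =>
        refine (((ih (c 0) (cf_lt α hne 0)).1 0)).subset ?_
        rintro ξ ⟨h1, h2⟩
        refine ⟨h1, ?_⟩
        exfalso
        apply h2
        have h : ξ < α := h1.trans (cf_lt α hne 0)
        have hf : Nat.find (cf_cof α hne ξ h) = 0 := by
          rw [Nat.find_eq_zero]; exact h1.le
        rw [hval ξ h, hf, if_pos h1]
        simp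
      | succ n ihn =>
        have hle : c n ≤ c (n + 1) := cf_mono α hne (Nat.le_succ n)
        have h3 := (ih (c (n + 1)) (cf_lt α hne (n + 1))).2 (c n) hle
        have h4 := (ih (c (n + 1)) (cf_lt α hne (n + 1))).1 (n + 1)
        refine (((ihn.union h3).union h4).union (finite_singleton (c n))).subset ?_
        rintro ξ ⟨h1, h2⟩
        have h : ξ < α := h1.trans (cf_lt α hne (n + 1))
        by_cases h5 : ξ < c n
        · left; left
          by_cases h6 : e (c n) ξ = e α ξ
          · right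
            refine ⟨h5, ?_⟩
            rw [h6]; exact fun h7 => h2 h7.symm
          · left
            exact ⟨h5, h6⟩
        · by_cases h6 : ξ = c n
          · right; exact h6
          · left; right
            refine ⟨h1, ?_⟩
            have h7 : c n < ξ := lt_of_le_of_ne (not_lt.1 h5) (Ne.symm h6)
            have hf : Nat.find (cf_cof α hne ξ h) = n + 1 := by
              rw [Nat.find_eq_iff]
              refine ⟨h1.le, ?_⟩
              intro m hm
              rw [not_le]
              exact lt_of_le_of_lt (cf_mono α hne (Nat.lt_succ_iff.1 hm)) h7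
            rw [hval ξ h, hf, if_pos h1] at h2
            by_contra h8
            rw [not_le] at h8
            exact h2 (max_eq_left h8.le).symm
    constructor
    · intro m
      have : {ξ | ξ < α ∧ e α ξ ≤ m} ⊆ ⋃ n ∈ Finset.range (m + 1),
          ({c n} ∪ {ξ | ξ < c n ∧ e (c n) ξ ≤ m}) := by
        rintro ξ ⟨h1, h2⟩
        rw [hval ξ h1] at h2
        set n := Nat.find (cf_cof α hne ξ h1) with hn
        have h3 : n ≤ m := (le_max_right _ _).trans h2
        have h4 : ξ ≤ c n := Nat.find_spec (cf_cof α hne ξ h1)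
        refine mem_biUnion (Finset.mem_coe.2 (Finset.mem_range.2 (Nat.lt_succ_of_le h3))) ?_
        rcases eq_or_lt_of_le h4 with h5 | h5
        · left; exact h5
        · right
          refine ⟨h5, ?_⟩
          rw [if_pos h5] at h2
          exact (le_max_left _ _).trans h2
      refine Set.Finite.subset ?_ this
      refine Set.Finite.biUnion (Finset.finite_toSet _) fun n _ => ?_
      exact (finite_singleton _).union ((ih (c n) (cf_lt α hne n)).1 m)
    · intro β hβ
      rcases eq_or_lt_of_le hβ with rfl | hβ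
      · convert Set.finite_empty
        ext ξ; simp
      · obtain ⟨n, hn⟩ := cf_cof α hne β hβ
        have h1 := (ih (c n) (cf_lt α hne n)).2 β hn
        refine (h1.union (hagree n)).subset ?_
        rintro ξ ⟨h2, h3⟩
        by_cases h4 : e β ξ = e (c n) ξ
        · right
          exact ⟨lt_of_lt_of_le h2 hn, h4 ▸ h3⟩
        · left; exact ⟨h2, h4⟩

lemma e_finite (α : W) (m : ℕ) : {ξ | ξ < α ∧ e α ξ ≤ m}.Finite := (eprop α).1 m

lemma e_coh {α β : W} (h : β ≤ α) : {ξ | ξ < β ∧ e β ξ ≠ e α ξ}.Finite := (eprop α).2 β h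

/-- There is no uncountable branch. -/
lemma no_branch (γ : W) (S : Set W) (hS : ¬ S.Countable) :
    ∃ ν ∈ S, ∃ μ ∈ S, γ < ν ∧ ν < μ ∧ ∃ ξ, γ ≤ ξ ∧ ξ < ν ∧ e ν ξ ≠ e μ ξ := by
  by_contra hcon
  push Not at hcon
  -- union function
  have hex : ∀ ξ : W, ∃ ν ∈ S, γ < ν ∧ ξ < ν := by
    intro ξ
    obtain ⟨ν, hν, h⟩ := exists_mem_gt hS (max γ ξ)
    exact ⟨ν, hν, lt_of_le_of_lt (le_max_left _ _) h, lt_of_le_of_lt (le_max_right _ _) h⟩
  choose N hN1 hN2 hN3 using hex
  let h : W → ℕ := fun ξ => e (N ξ) ξ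
  have hh : ∀ ν ∈ S, γ < ν → ∀ ξ, γ ≤ ξ → ξ < ν → e ν ξ = h ξ := by
    intro ν hν hγν ξ h1 h2
    rcases lt_trichotomy ν (N ξ) with h3 | h3 | h3
    · exact hcon ν hν (N ξ) (hN1 ξ) hγν h3 ξ h1 h2
    · show e ν ξ = e (N ξ) ξ
      rw [← h3]
    · exact (hcon (N ξ) (hN1 ξ) ν hν (hN2 ξ) h3 ξ h1 (hN3 ξ)).symm
  -- some fibre is uncountable
  have hfib : ∃ n, ¬ {ξ | γ ≤ ξ ∧ h ξ = n}.Countable := by
    by_contra hall
    push Not at hall
    apply not_countable_W
    have : (univ : Set W) ⊆ Iic γ ∪ ⋃ n, {ξ | γ ≤ ξ ∧ h ξ = n} := by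
      intro ξ _
      rcases le_total ξ γ with h1 | h1
      · left; exact h1
      · right; exact mem_iUnion.2 ⟨h ξ, h1, rfl⟩
    exact ((countable_Iic γ).union (countable_iUnion hall)).mono this
  obtain ⟨n, hn⟩ := hfib
  have hinf : {ξ | γ ≤ ξ ∧ h ξ = n}.Infinite := fun hf => hn hf.countable
  obtain ⟨t, ht1, ht2⟩ := hinf.exists_subset_countable_infinite
  obtain ⟨w, hw⟩ := exists_gt ht2.1
  obtain ⟨ν, hν1, hν2⟩ := exists_mem_gt hS (max γ w)
  have hγν : γ < ν := lt_of_le_of_lt (le_max_left _ _) hν2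
  apply ht2.2
  refine (e_finite ν n).subset ?_
  intro ξ hξ
  obtain ⟨h1, h2⟩ := ht1 hξ
  have h3 : ξ < ν := (hw ξ hξ).trans (lt_of_le_of_lt (le_max_right _ _) hν2)
  exact ⟨h3, by rw [hh ν hν1 hγν ξ h1 h3, h2]⟩

/-! ### Nodes -/

/-- agreement below `δ` -/
def agree (δ : W) (t s : W → ℤ) : Prop := ∀ η < δ, t η = s η

lemma agree.refl (δ : W) (t : W → ℤ) : agree δ t t := fun _ _ => rfl

lemma agree.symm {δ : W} {t s : W → ℤ} (h : agree δ t s) : agree δ s t := fun η hη => (h η hη).symm

lemma agree.trans {δ : W} {t s r : W → ℤ} (h : agree δ t s) (h' : agree δ s r) : agree δ t r :=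
  fun η hη => (h η hη).trans (h' η hη)

lemma agree.mono {δ ε : W} {t s : W → ℤ} (h : agree ε t s) (hd : δ ≤ ε) : agree δ t s :=
  fun η hη => h η (lt_of_lt_of_le hη hd)

/-- the type of all functions with lexicographic order -/
abbrev F : Type := Lex (W → ℤ)

lemma lt_iff {t s : F} : t < s ↔ ∃ i, (∀ j < i, t j = s j) ∧ t i < s i := Iff.rfl

lemma exists_diff {t s : W → ℤ} (h : t ≠ s) : ∃ i, agree i t s ∧ t i ≠ s i := by
  have hne : {i | t i ≠ s i}.Nonempty := by
    by_contra hc
    rw [not_nonempty_iff_eq_empty] at hc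
    apply h
    funext i
    by_contra hi
    have : i ∈ {i | t i ≠ s i} := hi
    rw [hc] at this
    exact this
  obtain ⟨i, hi, hmin⟩ := WellFounded.has_min (wellFounded_lt (α := W)) _ hne
  refine ⟨i, fun j hj => ?_, hi⟩
  by_contra hc
  exact hmin j hc hj

lemma lt_or_gt_of_diff {t s : F} {i : W} (h : agree i t s) (h' : t i < s i) : t < s := ⟨i, h, h'⟩

lemma diff_of_lt {t s : F} (h : t < s) : ∃ i, agree i t s ∧ t i < s i := h

lemma not_agree_of_diff {t s : W → ℤ} {i β : W} (h : t i ≠ s i) (hi : i < β) : ¬ agree β t s :=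
  fun ha => h (ha i hi)

lemma agree_iff_le {t s : W → ℤ} {i β : W} (h : agree i t s) (h' : t i ≠ s i) :
    agree β t s ↔ β ≤ i :=
  ⟨fun ha => not_lt.1 fun hi => h' (ha i hi), fun hi => h.mono hi⟩

lemma lt_congr_left {β : W} {a a' b : F} (h : agree β a a') (hb : ¬ agree β a b) :
    a < b ↔ a' < b := by
  constructor
  · rintro ⟨i, h1, h2⟩
    have hi : i < β := by
      by_contra hc
      exact hb (fun η hη => h1 η (lt_of_lt_of_le hη (not_lt.1 hc)))
    refine ⟨i, fun j hj => ?_, ?_⟩
    · exact (h j (hj.trans hi)).symm.trans (h1 j hj)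
    · exact lt_of_eq_of_lt (h i hi).symm h2
  · rintro ⟨i, h1, h2⟩
    have hi : i < β := by
      by_contra hc
      exact hb (h.trans fun η hη => h1 η (lt_of_lt_of_le hη (not_lt.1 hc)))
    refine ⟨i, fun j hj => ?_, ?_⟩
    · exact (h j (hj.trans hi)).trans (h1 j hj)
    · exact lt_of_eq_of_lt (h i hi) h2

lemma lt_congr_right {β : W} {a a' b : F} (h : agree β a a') (hb : ¬ agree β a b) :
    b < a ↔ b < a' := by
  constructor
  · rintro ⟨i, h1, h2⟩
    have hi : i < β := by
      by_contra hc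
      exact hb (fun η hη => (h1 η (lt_of_lt_of_le hη (not_lt.1 hc))).symm)
    refine ⟨i, fun j hj => ?_, ?_⟩
    · exact (h1 j hj).trans (h j (hj.trans hi))
    · exact lt_of_lt_of_eq h2 (h i hi)
  · rintro ⟨i, h1, h2⟩
    have hi : i < β := by
      by_contra hc
      exact hb (h.trans fun η hη => (h1 η (lt_of_lt_of_le hη (not_lt.1 hc))).symm)
    refine ⟨i, fun j hj => ?_, ?_⟩
    · exact (h1 j hj).trans (h j (hj.trans hi)).symm
    · exact lt_of_lt_of_eq h2 (h i hi).symm

/-- elements between two functions agreeing below `δ` agree with them below `δ` -/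
lemma agree_of_between {δ : W} {a b c : F} (h : agree δ a b) (h1 : a < c) (h2 : c < b) :
    agree δ a c := by
  by_contra hc
  have h3 := (lt_congr_left h hc).1 h1
  exact absurd h3 (not_lt.2 h2.le)

/-- `t` is a node with last index `ξ`. -/
def IsNode (t : W → ℤ) (ξ : W) : Prop :=
  (∀ η, t η ≠ 0 ↔ η ≤ ξ) ∧ {η | η < ξ ∧ t η ≠ (e ξ η : ℤ) + 2}.Finite

/-- the set of all nodes of successor height -/
def T : Set F := {t | ∃ ξ, IsNode t ξ}

open Classical in
/-- the last index of a node -/
noncomputable def top (t : F) : W := if h : ∃ ξ, IsNode t ξ then h.choose else Classical.arbitrary W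

lemma top_spec {t : F} (h : t ∈ T) : IsNode t (top t) := by
  have h' : ∃ ξ, IsNode t ξ := h
  rw [top, dif_pos h']
  exact h'.choose_spec

lemma ne_zero_iff {t : F} (h : t ∈ T) (η : W) : t η ≠ 0 ↔ η ≤ top t := (top_spec h).1 η

lemma eq_zero_iff {t : F} (h : t ∈ T) (η : W) : t η = 0 ↔ top t < η := by
  rw [← not_le, ← ne_zero_iff h, not_not]

lemma top_eq {t : F} {ξ : W} (h : IsNode t ξ) : top t = ξ := by
  have hT : t ∈ T := ⟨ξ, h⟩
  apply le_antisymm
  · rw [← h.1, ne_zero_iff hT]
  · rw [← ne_zero_iff hT, h.1]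

lemma le_top_of_agree {δ : W} {t s : F} (ht : t ∈ T) (hs : s ∈ T) (h : agree δ t s)
    (hδ : δ ≤ top t) : ∀ η < δ, η ≤ top s := by
  intro η hη
  rw [← ne_zero_iff hs, ← h η hη, ne_zero_iff ht]
  exact hη.le.trans hδ

lemma node_coh {t : F} (ht : t ∈ T) {ν : W} (hν : ν ≤ top t) :
    {η | η < ν ∧ t η ≠ (e ν η : ℤ) + 2}.Finite := by
  refine (((top_spec ht).2).union (e_coh hν)).subset ?_
  rintro η ⟨h1, h2⟩
  by_cases h3 : t η = (e (top t) η : ℤ) + 2
  · right
    refine ⟨h1, ?_⟩
    intro h4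
    apply h2
    rw [h3, h4]
  · left; exact ⟨lt_of_lt_of_le h1 hν, h3⟩

/-- no uncountable branch, second form -/
lemma no_branch' (b : W → ℤ) (hb : ∀ δ, {η | η < δ ∧ b η ≠ (e δ η : ℤ) + 2}.Finite) : False := by
  have hfib : ∃ n, ¬ {ξ | b ξ = n}.Countable := by
    by_contra hall
    push Not at hall
    apply not_countable_W
    have : (univ : Set W) ⊆ ⋃ n, {ξ | b ξ = n} := fun ξ _ => mem_iUnion.2 ⟨b ξ, rfl⟩
    exact (countable_iUnion hall).mono this
  obtain ⟨n, hn⟩ := hfib
  have hinf : {ξ | b ξ = n}.Infinite := fun hf => hn hf.countable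
  obtain ⟨t, ht1, ht2⟩ := hinf.exists_subset_countable_infinite
  obtain ⟨w, hw⟩ := exists_gt ht2.1
  apply ht2.2
  refine ((hb w).union (e_finite w (n - 2).toNat)).subset ?_
  intro ξ hξ
  have h1 : b ξ = n := ht1 hξ
  by_cases h2 : b ξ = (e w ξ : ℤ) + 2
  · right
    refine ⟨hw ξ hξ, ?_⟩
    rw [h1] at h2
    omega
  · left
    exact ⟨hw ξ hξ, h2⟩

/-! ### Countability -/

open Classical in
/-- restriction below `δ` -/
noncomputable def res (δ : W) (t : F) : F := fun η => if η < δ then t η else 0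

lemma res_apply_lt {δ : W} {t : F} {η : W} (h : η < δ) : res δ t η = t η := if_pos h

lemma res_apply_ge {δ : W} {t : F} {η : W} (h : ¬ η < δ) : res δ t η = 0 := if_neg h

lemma res_eq_iff {δ : W} {t s : F} : res δ t = res δ s ↔ agree δ t s := by
  constructor
  · intro h η hη
    have := congrFun h η
    rwa [res_apply_lt hη, res_apply_lt hη] at this
  · intro h
    funext η
    by_cases hη : η < δ
    · rw [res_apply_lt hη, res_apply_lt hη, h η hη]
    · rw [res_apply_ge hη, res_apply_ge hη]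

lemma res_mono (δ : W) : Monotone (res δ) := by
  intro t s h
  rcases eq_or_lt_of_le h with rfl | h
  · exact le_rfl
  by_cases ha : agree δ t s
  · exact (res_eq_iff.2 ha).le
  · obtain ⟨i, h1, h2⟩ := h
    have hi : i < δ := by
      by_contra hc
      exact ha (fun η hη => h1 η (lt_of_lt_of_le hη (not_lt.1 hc)))
    apply le_of_lt
    refine ⟨i, fun j hj => ?_, ?_⟩
    · show res δ t j = res δ s j
      rw [res_apply_lt (hj.trans hi), res_apply_lt (hj.trans hi)]
      exact h1 j hj
    · show res δ t i < res δ s i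
      rw [res_apply_lt hi, res_apply_lt hi]
      exact h2

lemma countable_modifications (g : W → ℤ) (D : Set W) (hD : D.Countable) :
    {f : W → ℤ | {η | f η ≠ g η}.Finite ∧ {η | f η ≠ g η} ⊆ D}.Countable := by
  classical
  have : Countable D := hD.to_subtype
  let φ : (D →₀ ℤ) → (W → ℤ) := fun p η => if h : η ∈ D then g η + p ⟨η, h⟩ else g η
  refine (countable_range φ).mono ?_
  rintro f ⟨h1, h2⟩
  have hfin : {d : D | f d.1 - g d.1 ≠ 0}.Finite := by
    have : {d : D | f d.1 - g d.1 ≠ 0} = Subtype.val ⁻¹' {η | f η ≠ g η} := by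
      ext d; simp [sub_eq_zero]
    rw [this]
    exact h1.preimage Subtype.val_injective.injOn
  refine ⟨Finsupp.ofSupportFinite (fun d : D => f d.1 - g d.1) hfin, ?_⟩
  funext η
  by_cases h : η ∈ D
  · have h3 : (Finsupp.ofSupportFinite (fun d : D => f d.1 - g d.1) hfin) ⟨η, h⟩ = f η - g η := rfl
    show (if h : η ∈ D then g η + (Finsupp.ofSupportFinite (fun d : D => f d.1 - g d.1) hfin)
      ⟨η, h⟩ else g η) = f η
    rw [dif_pos h, h3]
    ring
  · have : f η = g η := by
      by_contra hc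
      exact h (h2 hc)
    simp [φ, h, this]

lemma countable_res (δ : W) : {f | ∃ t ∈ T, f = res δ t}.Countable := by
  classical
  have key : {f | ∃ t ∈ T, f = res δ t} ⊆
      {f : W → ℤ | {η | f η ≠ (if η < δ then (e δ η : ℤ) + 2 else 0)}.Finite ∧
        {η | f η ≠ (if η < δ then (e δ η : ℤ) + 2 else 0)} ⊆ Iio δ} ∪
      ⋃ ξ ∈ Iio δ, {f : W → ℤ | {η | f η ≠ (if η ≤ ξ then (e ξ η : ℤ) + 2 else 0)}.Finite ∧
        {η | f η ≠ (if η ≤ ξ then (e ξ η : ℤ) + 2 else 0)} ⊆ Iic ξ} := by
    rintro f ⟨t, ht, rfl⟩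
    rcases le_or_gt δ (top t) with h | h
    · left
      have h1 : {η | res δ t η ≠ (if η < δ then (e δ η : ℤ) + 2 else 0)} ⊆
          {η | η < δ ∧ t η ≠ (e δ η : ℤ) + 2} := by
        intro η hη
        by_cases h2 : η < δ
        · refine ⟨h2, ?_⟩
          have h3 : res δ t η ≠ (if η < δ then (e δ η : ℤ) + 2 else 0) := hη
          rwa [res_apply_lt h2, if_pos h2] at h3
        · exfalso
          have h3 : res δ t η ≠ (if η < δ then (e δ η : ℤ) + 2 else 0) := hη
          rw [res_apply_ge h2, if_neg h2] at h3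
          exact h3 rfl
      exact ⟨(node_coh ht h).subset h1, fun η hη => (h1 hη).1⟩
    · right
      refine mem_biUnion (show top t ∈ Iio δ from h) ?_
      have h0 : res δ t = t := by
        funext η
        by_cases h2 : η < δ
        · exact res_apply_lt h2
        · rw [res_apply_ge h2]
          exact ((eq_zero_iff ht η).2 (lt_of_lt_of_le h (not_lt.1 h2))).symm
      have h1 : {η | t η ≠ (if η ≤ top t then (e (top t) η : ℤ) + 2 else 0)} ⊆
          {η | η < top t ∧ t η ≠ (e (top t) η : ℤ) + 2} ∪ {top t} := by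
        intro η hη
        have h3 : t η ≠ (if η ≤ top t then (e (top t) η : ℤ) + 2 else 0) := hη
        rcases lt_trichotomy η (top t) with h2 | h2 | h2
        · left
          rw [if_pos h2.le] at h3
          exact ⟨h2, h3⟩
        · right; exact h2
        · rw [if_neg (not_le.2 h2), (eq_zero_iff ht η).2 h2] at h3
          exact absurd rfl h3
      rw [h0]
      refine ⟨(((top_spec ht).2).union (finite_singleton _)).subset h1, ?_⟩
      intro η hη
      rcases h1 hη with h2 | h2
      · exact h2.1.le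
      · exact le_of_eq h2
  refine Set.Countable.mono key ?_
  refine (countable_modifications _ _ (countable_Iio δ)).union ?_
  exact (countable_Iio δ).biUnion fun ξ _ => countable_modifications _ _ (countable_Iic ξ)

lemma countable_low (δ : W) : {t ∈ T | top t < δ}.Countable := by
  refine (countable_res δ).mono ?_
  rintro t ⟨ht, h⟩
  refine ⟨t, ht, ?_⟩
  funext η
  by_cases h2 : η < δ
  · exact (res_apply_lt h2).symm
  · rw [res_apply_ge h2]
    exact (eq_zero_iff ht η).2 (lt_of_lt_of_le h (not_lt.1 h2))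

/-- countably many representatives of the classes of agreement below `δ` -/
lemma exists_reps (δ : W) (X : Set F) (hX : X ⊆ T) :
    ∃ R ⊆ X, R.Countable ∧ ∀ t ∈ X, ∃ r ∈ R, agree δ t r := by
  have h1 : (res δ '' X).Countable := (countable_res δ).mono (by
    rintro f ⟨t, ht, rfl⟩
    exact ⟨t, hX ht, rfl⟩)
  have h2 : ∀ f ∈ res δ '' X, ∃ t ∈ X, res δ t = f := fun f hf => hf
  choose! ρ hρ1 hρ2 using h2
  refine ⟨ρ '' (res δ '' X), ?_, h1.image _, ?_⟩
  · rintro _ ⟨f, hf, rfl⟩
    exact hρ1 f hf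
  · intro t ht
    have hm : res δ t ∈ res δ '' X := mem_image_of_mem _ ht
    refine ⟨ρ (res δ t), mem_image_of_mem _ hm, ?_⟩
    exact (res_eq_iff.1 (hρ2 _ hm)).symm

/-! ### No uncountable monotone sequences -/

lemma eventually_const {Y : Type*} [LinearOrder Y] (h : W → Y) (hm : Monotone h)
    (hc : (range h).Countable) : ∃ w, ∀ v ≥ w, h v = h w := by
  have h1 : ∀ y ∈ range h, ∃ w, h w = y := fun y hy => hy
  choose! ρ hρ using h1
  obtain ⟨w, hw⟩ := exists_gt (hc.image ρ)
  refine ⟨w, fun v hv => le_antisymm ?_ (hm hv)⟩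
  have h2 : ρ (h v) < w := hw _ (mem_image_of_mem _ (mem_range_self v))
  calc h v = h (ρ (h v)) := (hρ _ (mem_range_self v)).symm
    _ ≤ h w := hm h2.le

lemma no_seq (g : W → F) (hg : ∀ w, g w ∈ T) (hinj : Function.Injective g)
    (hev : ∀ δ, ∃ w, ∀ v ≥ w, res δ (g v) = res δ (g w)) : False := by
  choose ω hω using hev
  -- the branch
  have hsucc : ∀ η : W, ∃ δ, η < δ := exists_gt'
  choose σ hσ using hsucc
  let b : W → ℤ := fun η => g (ω (σ η)) η
  have hb : ∀ δ w, ω δ ≤ w → ∀ η < δ, b η = g w η := by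
    intro δ w hw η hη
    have h1 : g (max w (ω (σ η))) η = g (ω (σ η)) η := by
      have := hω (σ η) (max w (ω (σ η))) (le_max_right _ _)
      exact (res_eq_iff.1 this) η (hσ η)
    have h2 : g (max w (ω (σ η))) η = g (ω δ) η := by
      have := hω δ (max w (ω (σ η))) (hw.trans (le_max_left _ _))
      exact (res_eq_iff.1 this) η hη
    have h3 : g w η = g (ω δ) η := (res_eq_iff.1 (hω δ w hw)) η hη
    show g (ω (σ η)) η = g w η
    rw [← h1, h2, h3]
  apply no_branch' b
  intro δ
  -- find w with top ≥ δ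
  have hlow : {w | top (g w) < δ}.Countable := by
    have : {w | top (g w) < δ} ⊆ g ⁻¹' {t ∈ T | top t < δ} := fun w hw => ⟨hg w, hw⟩
    exact ((countable_low δ).preimage hinj).mono this
  obtain ⟨w, hw⟩ := exists_gt hlow
  have h1 : δ ≤ top (g (max w (ω δ))) := by
    by_contra hc
    exact absurd (hw _ (not_le.1 hc)) (not_lt.2 (le_max_left _ _))
  refine (node_coh (hg _) h1).subset ?_
  rintro η ⟨h2, h3⟩
  refine ⟨h2, ?_⟩
  rwa [← hb δ _ (le_max_right _ _) η h2]

lemma no_strictMono (g : W → F) (hg : ∀ w, g w ∈ T) (h : StrictMono g) : False := by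
  refine no_seq g hg h.injective fun δ => ?_
  apply eventually_const (fun v => res δ (g v)) ((res_mono δ).comp h.monotone)
  refine (countable_res δ).mono ?_
  rintro _ ⟨w, rfl⟩
  exact ⟨g w, hg w, rfl⟩

lemma no_strictAnti (g : W → F) (hg : ∀ w, g w ∈ T) (h : StrictAnti g) : False := by
  refine no_seq g hg h.injective fun δ => ?_
  obtain ⟨w, hw⟩ := eventually_const (Y := Fᵒᵈ) (fun v => OrderDual.toDual (res δ (g v)))
    (fun a b hab => (res_mono δ) (h.antitone hab)) (by
      refine ((countable_res δ).image OrderDual.toDual).mono ?_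
      rintro _ ⟨w, rfl⟩
      exact ⟨_, ⟨g w, hg w, rfl⟩, rfl⟩)
  exact ⟨w, hw⟩

/-- Every set of nodes has a countable cofinal subset. -/
lemma exists_cof (X : Set F) (hX : X ⊆ T) : ∃ C ⊆ X, C.Countable ∧ ∀ x ∈ X, ∃ c ∈ C, x ≤ c := by
  classical
  by_contra hcon
  push Not at hcon
  have h1 : ∀ C : Set F, C.Countable → ∃ x ∈ X, ∀ c ∈ C, c ∈ X → c < x := by
    intro C hC
    obtain ⟨x, hx, h⟩ := hcon (C ∩ X) inter_subset_right (hC.mono inter_subset_left)
    exact ⟨x, hx, fun c hc hcX => h c ⟨hc, hcX⟩⟩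
  choose! G hG1 hG2 using h1
  let g : W → F := WellFounded.fix (wellFounded_lt (α := W))
    (fun w ih => G (range fun v : Iio w => ih v.1 v.2))
  have hg : ∀ w, g w = G (range fun v : Iio w => g v.1) := fun w => WellFounded.fix_eq _ _ _
  have hcnt : ∀ w, (range fun v : Iio w => g v.1).Countable := by
    intro w
    have : Countable (Iio w) := (countable_Iio w).to_subtype
    exact countable_range _
  have hmem : ∀ w, g w ∈ X := fun w => by rw [hg]; exact hG1 _ (hcnt w)
  refine no_strictMono g (fun w => hX (hmem w)) ?_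
  intro v w hvw
  rw [hg w]
  exact hG2 _ (hcnt w) (g v) ⟨⟨v, hvw⟩, rfl⟩ (hmem v)

/-- Every set of nodes has a countable coinitial subset. -/
lemma exists_coinit (X : Set F) (hX : X ⊆ T) :
    ∃ C ⊆ X, C.Countable ∧ ∀ x ∈ X, ∃ c ∈ C, c ≤ x := by
  classical
  by_contra hcon
  push Not at hcon
  have h1 : ∀ C : Set F, C.Countable → ∃ x ∈ X, ∀ c ∈ C, c ∈ X → x < c := by
    intro C hC
    obtain ⟨x, hx, h⟩ := hcon (C ∩ X) inter_subset_right (hC.mono inter_subset_left)
    exact ⟨x, hx, fun c hc hcX => h c ⟨hc, hcX⟩⟩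
  choose! G hG1 hG2 using h1
  let g : W → F := WellFounded.fix (wellFounded_lt (α := W))
    (fun w ih => G (range fun v : Iio w => ih v.1 v.2))
  have hg : ∀ w, g w = G (range fun v : Iio w => g v.1) := fun w => WellFounded.fix_eq _ _ _
  have hcnt : ∀ w, (range fun v : Iio w => g v.1).Countable := by
    intro w
    have : Countable (Iio w) := (countable_Iio w).to_subtype
    exact countable_range _
  have hmem : ∀ w, g w ∈ X := fun w => by rw [hg]; exact hG1 _ (hcnt w)
  refine no_strictAnti g (fun w => hX (hmem w)) ?_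
  intro v w hvw
  rw [hg w]
  exact hG2 _ (hcnt w) (g v) ⟨⟨v, hvw⟩, rfl⟩ (hmem v)

end Pool.Agent.H78.SS
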